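import Pool.Agent.D0H69.L0.Defs
import Pool.Agent.Y703.CX.Stm

/-!
# Project L0: the numbers `D` over `ℤ` that are `±1` modulo `9`
-/

set_option autoImplicit false
set_option linter.unusedVariables false

open scoped Classical

namespace Pool.Agent.D0H69.L0

open Finset
open Pool.Agent.Y692.QS (Ei w nr toC)
open Pool.Agent.Y703.CT (Dt pD IsL WD)
open Pool.Agent.Y703.CX (c3)
open Pool.Agent.Y715.T.Rec (cs)
open Pool.Agent.N883.FF (nq)

/-- the class: `D` is cube-free, `±1` modulo `9`, and exactly two of its prime factors are `2`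
modulo `3` -/
def Cl0 (D : ℕ) : Prop := D ≠ 0 ∧ (D % 9 = 1 ∨ D % 9 = 8) ∧ (∀ p : ℕ, p.Prime → ¬ p ^ 3 ∣ D) ∧
  (D.primeFactors.filter fun p => p % 3 = 2).card = 2

/-- `D` is not a product `d₀ d₁ d₂` of coprime factors, at least two of them different from `1`,
such that `d_{c+1} d_{c+2}²` is a cube modulo the primes dividing `d_c`, for all `c`, and a cube
modulo `9` -/
def NoSplit0 (D : ℕ) : Prop :=
  ∀ d : ZMod 3 → ℕ, ∏ c, d c = D → (∀ c c', c ≠ c' → Nat.Coprime (d c) (d c')) →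
    (∀ (c : ZMod 3) (p : ℕ), p.Prime → p ∣ d c →
      ∃ x : ℤ, (p : ℤ) ∣ (d (c + 1) : ℤ) * (d (c + 2) : ℤ) ^ 2 - x ^ 3) →
    (∀ c : ZMod 3, ∃ x : ℤ, (9 : ℤ) ∣ (d (c + 1) : ℤ) * (d (c + 2) : ℤ) ^ 2 - x ^ 3) →
    ∃ c, ∀ c', c' ≠ c → d c' = 1

/-- L0-EXI and L0-CNT. -/
def S_EXI0 : Prop := ∀ D : ℕ, Cl0 D →
  (∃ (n : ℕ) (π : Fin n → Ei) (e : Fin n → ZMod 3), Dt π e ∧
    ((D : Ei) = pD π e ∨ (D : Ei) = -pD π e)) ∧
  ∀ (J : Type) [Fintype J] (π : J → Ei) (e : J → ZMod 3), Dt π e →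
    ((D : Ei) = pD π e ∨ (D : Ei) = -pD π e) → Ntl π e ∧
      Fintype.card J + 2 = 2 * D.primeFactors.card

/-- L0-CRI: the criterion over `ℤ` and the criterion over the Eisenstein integers. (The conjugation
acts on the kernel of the bordered matrix by `(v, a) ↦ (v ∘ star, -a)`; the symmetric kernel
vectors (`a = 0`) are the splittings; the two blocks are transposes of each other: symmetric
vectors modulo constants, with values the antisymmetric vectors and the last equation; and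
antisymmetric vectors and `a`, with values the symmetric vectors of sum zero.) Checked numerically
below 4000. -/
def S_CRI0 : Prop := ∀ D : ℕ, Cl0 D →
  ∀ (J : Type) [Fintype J] (π : J → Ei) (e : J → ZMod 3),
    Dt π e → ((D : Ei) = pD π e ∨ (D : Ei) = -pD π e) → (KerM π e ↔ NoSplit0 D)

/-- L0-DENQ: the exact proportion over `ℚ`. -/
def S_DEN0 : Prop := Filter.Tendsto
  (fun X : ℕ => (((Icc 1 X).filter fun D => Squarefree D ∧ Cl0 D ∧ NoSplit0 D).card : ℝ) /
    (((Icc 1 X).filter fun D => Squarefree D ∧ Cl0 D).card : ℝ)) Filter.atTop (nhds c3)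

end Pool.Agent.D0H69.L0
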