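import Mathlib
import Pool.Agent.Y715.T.Comb

/-!
# Project L0: the combinatorial statement

`Pool.Agent.Y715.T.Comb.D` are the first order terms, `b` the second order terms.
-/

set_option autoImplicit false
set_option linter.unusedVariables false

namespace Pool.Agent.D0H69.L0

open Finset

/-- L0-CMB. Computed examples: no counterexample for `J` with up to six elements (random). For `S`
with `∑ e_j q_j = 0` one has `b S = ± (y(S) κ(S) + f₂(S))`, `κ(S)` the sum over the spanning trees with the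
weights `∏_p e_p ^ (deg p - 1) ∏ c`, `y(S) = ∑ e_j y_j`, `f₂(S)` the sum over the unordered pairs `{A, B}`
with disjoint union `S` of `κ(A) κ(B) q(A) q(B)`, `q(A) = ∑ e_j q_j`. -/
def S_CMB : Prop := ∀ (J : Type) [Fintype J] [DecidableEq J] (c : J → J → ZMod 3)
  (q y e : J → ZMod 3) (b : Finset J → ZMod 3),
  (∀ j k, j ≠ k → c j k = c k j) → (∀ j, e j ≠ 0) → (∀ k, b {k} = y k) →
  (∀ S : Finset J, 2 ≤ S.card →
    ∑ T ∈ S.powerset.filter (fun T => T.Nonempty), (-1) ^ T.card * (b T *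
        ∏ i ∈ S \ T, ∑ l ∈ T, e l * c l i) +
      ∑ T ∈ S.powerset.filter (fun T => T.Nonempty ∧ ∑ l ∈ T, e l * q l = -1), (-1) ^ T.card *
        (Pool.Agent.Y715.T.Comb.D (fun i l => e l * c l i) q T *
          ∑ k ∈ S \ T, q k * ∏ i ∈ (S \ T).erase k, ∑ l ∈ T, e l * c l i) =
      if S.card = 2 then ∏ k ∈ S, q k else 0) →
  ∑ j, e j * q j = 0 →
  (∀ (v : J → ZMod 3) (a : ZMod 3), (∀ j, ∑ k, e k * c j k * (v k - v j) + a * q j = 0) →
    ∑ k, e k * v k * q k + a * ∑ k, e k * y k = 0 → (∀ i j, v i = v j) ∧ a = 0) →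
  b Finset.univ ≠ 0

end Pool.Agent.D0H69.L0
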