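import Pool.Agent.D0H43.L3.Defs

/-!
# Project L0 (helper69): the cubic twists unramified at `√-3`, definitions

`E_D : y² + D y = x³`, `D = ∏ π_j ^ (e j)`, `π_j` primary primes (`Dt π e`), in the last missing
class: the norm of `D` is `1` modulo `9`, that is `∑ e_j nq (π_j) = 0`.
-/

set_option autoImplicit false

open scoped Classical

namespace Pool.Agent.D0H69.L0

open Pool.Agent.Y692.QS (Ei w nr toC)
open Pool.Agent.Y703.CT (Dt pD chD)
open Pool.Agent.Y715.T.Rec (cs)
open Pool.Agent.N883.FF (nq)
open Pool.Agent.D0H43.L3 (yq)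

/-- the norm of `∏ π_j ^ (e j)` is `1` modulo `9` -/
def Ntl {J : Type} [Fintype J] (π : J → Ei) (e : J → ZMod 3) : Prop := ∑ j, e j * nq (π j) = 0

/-- the kernel of the bordered Laplacian consists of the constants: `v j` are the values at the
primes, `a` is the exponent of `ω`, the last equation is the local condition at `√-3`
(`∑ e_k yq (π_k)` is the exponent of the symbol of `3` modulo `D`, it is the class of `D` among the
elements `1` modulo `(√-3) ^ 3`, modulo `9`) -/
def KerM {J : Type} [Fintype J] (π : J → Ei) (e : J → ZMod 3) : Prop :=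
  ∀ (v : J → ZMod 3) (a : ZMod 3),
    (∀ j, ∑ k, e k * cs (π j) (π k) * (v k - v j) + a * nq (π j) = 0) →
    ∑ k, e k * v k * nq (π k) + a * ∑ k, e k * yq (π k) = 0 → (∀ i j, v i = v j) ∧ a = 0

end Pool.Agent.D0H69.L0
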