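import Pool.Agent.D0H69.L0.Rc
import Pool.Agent.D0H69.L0.StmC
import Pool.Agent.N883.FF.Conn
import Pool.Agent.D0H43.L3.Chi
import Pool.Agent.Y715.CT.AN1b
import Pool.Agent.Y350.CT.REC

/-!
# Project L0: the valuation of the central value
-/

set_option autoImplicit false
set_option linter.unusedSectionVars false
set_option linter.unusedVariables false

open Filter
open scoped Classical Topology PeriodPair

namespace Pool.Agent.D0H69.L0

namespace Anm

open Pool.Agent.Y692.QS (Ei w nr toC)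
open Pool.Agent.Y715.T.Rec (cs)
open Pool.Agent.Y715.T.RecG (Pq)
open Pool.Agent.Y696 (Cur eis om omr)
open Pool.Agent.Y715.T.Rs (eq0)
open Pool.Agent.W192.HK (sp)
open Pool.Agent.TH936.CM
open Pool.Agent.TH936.PU hiding v_int
open Pool.Agent.Y715.Idn Pool.Agent.Y715.Dist
open Pool.Agent.Y715.T.Three (lam lam_lt lam_ne lam_ne' sq_three v_two)
open Pool.Agent.Y715.T.Cg (Cg Zt zt_of_prim z_pow)
open Pool.Agent.Y715.Two (v_nat v_int v_unit v_mul_le_of)
open Pool.Agent.Y703.CT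
open Pool.Agent.N883.FF (nq)
open Pool.Agent.D0H43.L3 (yq)
open Sec Rc

variable {J : Type} {π : J → Ei} {e : J → ZMod 3}
  {Γ : Type*} [LinearOrderedCommGroupWithZero Γ] {v : Valuation ℂ Γ}

lemma toC_w : toC w = om := by
  have h := toC_eq' 0 1
  have e1 : (w : Ei) = ⟨0, 1⟩ := rfl
  rw [e1, h]
  push_cast
  ring

lemma eq0_w : eq0 w = omr := by
  apply Subtype.ext
  rw [Pool.Agent.Y715.T.Rs.eq0_coe, Pool.Agent.Y696.omr_coe, toC_w]

lemma zt_om (hv : v 3 < 1) : Zt v om := by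
  rw [← toC_w]
  exact zt_of_prim hv (k := 1) le_rfl (by
    rw [pow_one]
    exact Pool.Agent.Y715.T.Fin.prim_w)

/-- the norm -/
lemma card_form (x y : ℤ) : (Nat.card (eis ⧸ (sp (eq0 (1 + 3 * (⟨x, y⟩ : Ei))) : Ideal eis)) : ℂ) =
    1 + 3 * (2 * x - y) + 9 * ((nr (⟨x, y⟩ : Ei) : ℤ) : ℂ) := by
  have h2 : (Nat.card (eis ⧸ (sp (eq0 (1 + 3 * (⟨x, y⟩ : Ei))) : Ideal eis)) : ℤ) =
      nr (1 + 3 * (⟨x, y⟩ : Ei)) := by
    rw [← Pool.Agent.Y715.T.Tf.up_sp, Pool.Agent.Y715.T.Tf.card_up,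
      Pool.Agent.Y715.T.Rs.card_quo]
  have h3 : (Nat.card (eis ⧸ (sp (eq0 (1 + 3 * (⟨x, y⟩ : Ei))) : Ideal eis)) : ℂ) =
      ((nr (1 + 3 * (⟨x, y⟩ : Ei)) : ℤ) : ℂ) := by
    rw [← h2]
    push_cast
    rfl
  rw [h3, nr_form]
  push_cast
  ring

lemma coe_form (x y : ℤ) : ((eq0 (1 + 3 * (⟨x, y⟩ : Ei)) : eis) : ℂ) = 1 + 3 * (x + y * om) := by
  rw [Pool.Agent.Y715.T.Rs.eq0_coe, map_add, map_mul, map_one, map_ofNat, toC_eq']

/-- the family of second order -/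
theorem fz (hv : v 3 < 1) (h : Dt π e) :
    Fz v (fun i => eq0 (π i)) (Xc π e) (am π e) (fun i => nq (π i)) (fun i => yq (π i))
      (fun i => e i * nq (π i)) := by
  have : Fintype (eis ⧸ (sp 3 : Ideal eis)) :=
    @Fintype.ofFinite _ (fin_quot _ Pool.Agent.Y696.three_ne)
  have hz := zt_om (v := v) hv
  have h1 := hz.ne
  have h0 := fy (v := v) hv h
  rw [toC_w] at h0
  have hb : (fun i => -rq (π i)) = fun i => nq (π i) := by
    funext i
    rw [Pool.Agent.N883.FF.nq_rq (h.pq i).three]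
  rw [hb] at h0
  have h33 := cg_three (v := v) hv hz
  have h9 : ∀ t : ZMod 3, t + t + t = 0 := by decide
  refine { h0 with d1 := ?_, dN := ?_, dy := ?_, xo := ?_ }
  · intro i
    obtain ⟨x, y, h2, hr⟩ := ex_q (h.pq i).three
    show Cg v ((((eq0 (π i) : eis) : ℂ) - 1) / (1 - om) ^ 2) (nq (π i))
    rw [Pool.Agent.N883.FF.nq_rq (h.pq i).three, hr, h2, coe_form]
    have e1 : (1 + 3 * ((x : ℂ) + y * om) - 1) / (1 - om) ^ 2 =
        3 / (1 - om) ^ 2 * (((x + y : ℤ) : ℂ) + -(1 - om) * ((y : ℤ) : ℂ)) := by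
      push_cast
      ring
    rw [e1]
    have h4 : Cg v (((x + y : ℤ) : ℂ) + -(1 - om) * ((y : ℤ) : ℂ)) ((x + y : ℤ) : ZMod 3) := by
      refine (Cg.int hv (x + y)).of_sub ?_
      rw [add_sub_cancel_left]
      refine (v_mul_le_of (g := v (1 - om)) (by rw [v.map_neg]) (v_int _)).trans_lt hz.lt
    have h5 := h33.mul hv h4
    rwa [neg_one_mul] at h5
  · intro i
    obtain ⟨x, y, h2, hr⟩ := ex_q (h.pq i).three
    show Cg v (((Nat.card (eis ⧸ (sp (eq0 (π i)) : Ideal eis)) : ℂ) - 1) / (1 - om) ^ 2)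
      (-nq (π i))
    rw [Pool.Agent.N883.FF.nq_rq (h.pq i).three, hr, h2, card_form]
    have e1 : (1 + 3 * (2 * (x : ℂ) - y) + 9 * ((nr (⟨x, y⟩ : Ei) : ℤ) : ℂ) - 1) / (1 - om) ^ 2 =
        3 / (1 - om) ^ 2 * ((2 * x - y + 3 * nr (⟨x, y⟩ : Ei) : ℤ) : ℂ) := by
      push_cast
      ring
    rw [e1]
    have h5 := h33.mul hv (Cg.int hv (2 * x - y + 3 * nr (⟨x, y⟩ : Ei)))
    have e2 : (-1 : ZMod 3) * ((2 * x - y + 3 * nr (⟨x, y⟩ : Ei) : ℤ) : ZMod 3) =
        - -((x + y : ℤ) : ZMod 3) := by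
      push_cast
      linear_combination -h9 (x : ZMod 3) - h9 ((nr (⟨x, y⟩ : Ei) : ℤ) : ZMod 3)
    rwa [e2] at h5
  · intro i
    obtain ⟨x, y, h2, hr⟩ := ex_q (h.pq i).three
    show Cg v (((((eq0 (π i) : eis) : ℂ) - 1) +
      ((Nat.card (eis ⧸ (sp (eq0 (π i)) : Ideal eis)) : ℂ) - 1)) / (1 - om) ^ 3) (yq (π i))
    rw [h2, Pool.Agent.D0H43.L3.Chi.yq_one, card_form, coe_form]
    have e1 : (1 + 3 * ((x : ℂ) + y * om) - 1 +
        (1 + 3 * (2 * (x : ℂ) - y) + 9 * ((nr (⟨x, y⟩ : Ei) : ℤ) : ℂ) - 1)) / (1 - om) ^ 3 =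
        3 / (1 - om) ^ 2 * (-((y : ℤ) : ℂ) +
          (1 - om) * (3 / (1 - om) ^ 2) * ((x + nr (⟨x, y⟩ : Ei) : ℤ) : ℂ)) := by
      push_cast
      field_simp
      ring
    rw [e1]
    have h4 : Cg v (-((y : ℤ) : ℂ) + (1 - om) * (3 / (1 - om) ^ 2) *
        ((x + nr (⟨x, y⟩ : Ei) : ℤ) : ℂ)) (-((y : ℤ) : ZMod 3)) := by
      refine ((Cg.int hv y).neg hv).of_sub ?_
      rw [add_sub_cancel_left]
      refine (v_mul_le_of (v_mul_le_of le_rfl h33.le) (v_int _)).trans_lt hz.lt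
    have h5 := h33.mul hv h4
    have e2 : (-1 : ZMod 3) * -((y : ℤ) : ZMod 3) = (((⟨x, y⟩ : Ei).im : ℤ) : ZMod 3) := by
      show (-1 : ZMod 3) * -((y : ℤ) : ZMod 3) = ((y : ℤ) : ZMod 3)
      ring
    rwa [e2] at h5
  · intro i
    obtain ⟨h2, h4⟩ := Pool.Agent.N883.FF.cs_w' (h.pq i)
    have h5 : eq0.symm omr = w := by rw [← eq0_w, RingEquiv.symm_apply_apply]
    refine ⟨(-(e i * nq (π i))).val, ?_, ?_⟩
    · show Xc π e i omr = _
      rw [Xc_of (by rw [h5]; exact h4), h5, h2, toC_w]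
    · rw [ZMod.natCast_zmod_val]

end Anm

open Pool.Agent.Y692.QS (Ei w nr toC)
open Pool.Agent.Y703.CT (Dt pD chD IsHL Dt.neg)
open Pool.Agent.Y696 (Cur eis om)
open Pool.Agent.Y715.T.Three (lam lam_lt lam_ne lam_ne' sq_three v_two)
open Pool.Agent.Y715.T.Cg (Cg Zt zt_of_prim z_pow)
open Pool.Agent.Y715.Two (v_nat v_int v_unit v_mul_le_of)
open Pool.Agent.N883.FF (nq)
open Pool.Agent.D0H43.L3 (yq)

open Pool.Agent.Y715.T.Rec (cs)
open Pool.Agent.Y715.T.Rs (eq0)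
open Pool.Agent.W192.HK (sp)

lemma KerM.nonempty {J : Type} [Fintype J] {π : J → Ei} {e : J → ZMod 3} (h : KerM π e) :
    Nonempty J := by
  by_contra hJ
  rw [not_nonempty_iff] at hJ
  have h1 := (h (fun _ => 0) 1 (fun j => hJ.elim j) (by
    rw [Finset.univ_eq_empty, Finset.sum_empty, Finset.sum_empty, mul_zero, add_zero])).2
  exact absurd h1 (by decide)

/-- the recursion of `S_CMB` for the cubic symbols -/
def Brec {J : Type} [Fintype J] (π : J → Ei) (e : J → ZMod 3) (b : Finset J → ZMod 3) : Prop :=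
  (∀ k, b {k} = yq (π k)) ∧ ∀ S : Finset J, 2 ≤ S.card →
    ∑ T ∈ S.powerset.filter (fun T => T.Nonempty), (-1) ^ T.card * (b T *
        ∏ i ∈ S \ T, ∑ l ∈ T, e l * cs (π l) (π i)) +
      ∑ T ∈ S.powerset.filter (fun T => T.Nonempty ∧ ∑ l ∈ T, e l * nq (π l) = -1),
        (-1) ^ T.card * (Pool.Agent.Y715.T.Comb.D (fun i l => e l * cs (π l) (π i))
          (fun i => nq (π i)) T *
          ∑ k ∈ S \ T, nq (π k) * ∏ i ∈ (S \ T).erase k, ∑ l ∈ T, e l * cs (π l) (π i)) =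
      if S.card = 2 then ∏ k ∈ S, nq (π k) else 0

/-- **The valuation of the central value, general form.** The number `s` is integral, and its residue
is `b Finset.univ` for a solution `b` of the recursion. -/
theorem val_gen (hW : S_WPD) (J : Type) [Fintype J] [Nonempty J] (π : J → Ei) (e : J → ZMod 3)
    (h : Dt π e) (hn : Ntl π e) : ∃ F : ℂ → ℂ, IsHL π (fun k => -e k) F ∧
    ∀ (Γ : Type) [LinearOrderedCommGroupWithZero Γ] (v : Valuation ℂ Γ), v 3 < 1 →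
      ∀ (L : PeriodPair) (Ω : ℂ), Cur L Ω → ∃ (s : ℂ) (b : Finset J → ZMod 3), Brec π e b ∧
        Cg v s (b Finset.univ) ∧
        v ((starRingEnd ℂ) (F 1) / Ω) * v lam = v lam ^ Fintype.card J * v s := by
  obtain ⟨F, hF, hval⟩ := Pool.Agent.Y715.CT.AN1b.an1b J π (fun j => -e j) h.neg
  refine ⟨F, hF, ?_⟩
  intro Γ _ v hv L Ω hC
  have : Fintype (eis ⧸ (sp 3 : Ideal eis)) :=
    @Fintype.ofFinite _ (Pool.Agent.Y703.CT.fin_quot _ Pool.Agent.Y696.three_ne)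
  obtain ⟨ρ, n, hρ0, hρ, hv1⟩ := hval L Ω hC
  have hz := Anm.zt_om (v := v) hv
  have hz1 := hz.ne
  have hzl : v (1 - om) = v lam := Pool.Agent.Y703.CT.Ana.om_val hv
  have hfz := Anm.fz (v := v) hv h.neg
  have h3π : ∀ i, eq0 (π i) - 1 ∈ (sp 3 : Ideal eis) := by
    intro i
    exact Pool.Agent.Y715.T.Ex.three_mem.2 (h.pq i).three
  obtain ⟨b, hb, hb1, hrec⟩ := Rc.main hv hC Pool.Agent.Y703.CT.fin_quot hfz hz h3π hW
  have ham : Pool.Agent.Y703.CT.am π (fun j => -e j) = fun i l => e l * cs (π l) (π i) := by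
    funext i l
    unfold Pool.Agent.Y703.CT.am
    ring
  refine ⟨Rc.be L Ω (fun i => eq0 (π i)) (Pool.Agent.Y703.CT.Xc π fun j => -e j) Finset.univ, b,
    ⟨hb1, fun S hS => ?_⟩, hb Finset.univ Finset.univ_nonempty, ?_⟩
  · have h1 := hrec S hS
    have h2 : S.powerset.filter (fun T => T.Nonempty ∧ ∑ l ∈ T, -e l * nq (π l) = 1) =
        S.powerset.filter (fun T => T.Nonempty ∧ ∑ l ∈ T, e l * nq (π l) = -1) := by
      refine Finset.filter_congr fun T _ => and_congr_right fun _ => ?_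
      have h3 : ∑ l ∈ T, -e l * nq (π l) = -∑ l ∈ T, e l * nq (π l) := by
        rw [← Finset.sum_neg_distrib]
        exact Finset.sum_congr rfl fun l _ => by ring
      rw [h3, neg_eq_iff_eq_neg]
    rw [h2, ham] at h1
    exact h1
  · have hr : ∑ i, -e i * nq (π i) = 0 := by
      have h3 : ∑ i, -e i * nq (π i) = -∑ i, e i * nq (π i) := by
        rw [← Finset.sum_neg_distrib]
        exact Finset.sum_congr rfl fun l _ => by ring
      rw [h3]
      have h4 : ∑ i, e i * nq (π i) = 0 := hn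
      rw [h4, neg_zero]
    have hB1 := Rc.B1_zero hC Pool.Agent.Y703.CT.fin_quot hfz hW (T := Finset.univ)
      (by rw [hr]; decide)
    have hB2 := Rc.B2_zero hC Pool.Agent.Y703.CT.fin_quot hfz hW (T := Finset.univ)
      (by rw [hr]; decide)
    have hl : v lam ≠ 0 := lam_ne
    have hAV : v (Sec.AV L Ω (fun i => eq0 (π i)) (Pool.Agent.Y703.CT.Xc π fun j => -e j)
        Finset.univ) = v lam ^ (Fintype.card J + 2) *
        v (Rc.be L Ω (fun i => eq0 (π i)) (Pool.Agent.Y703.CT.Xc π fun j => -e j)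
          Finset.univ) := by
      unfold Rc.be Sec.CC
      rw [hB1, hB2, mul_zero, sub_zero, add_zero, map_div₀, map_pow, hzl, Finset.card_univ,
        mul_div_cancel₀ _ (pow_ne_zero _ hl)]
    have hκ := Pool.Agent.Y703.CT.Ana.kap_ne hC
    have hSP : Pool.Agent.Y703.CT.SPt L Ω π (fun j => -e j) Finset.univ =
        Pool.Agent.Y715.T.Lat.kap L Ω * Sec.AV L Ω (fun i => eq0 (π i))
          (Pool.Agent.Y703.CT.Xc π fun j => -e j) Finset.univ := by
      unfold Sec.AV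
      rw [mul_div_cancel₀ _ hκ]
      rfl
    have hc1 : v (∏ j, toC (π j)) = 1 := by
      rw [map_prod]
      refine Finset.prod_eq_one fun k _ => ?_
      apply v_unit
      have h := (Pool.Agent.Y703.CT.fy (v := v) hv h).lin k
      rw [Pool.Agent.Y715.T.Rs.eq0_coe] at h
      exact h.trans_lt hv
    have h18 : v 18 = v lam ^ 4 := by
      have : (18 : ℂ) = 2 * 9 := by norm_num
      rw [this, map_mul, v_two hv, one_mul, Pool.Agent.Y715.T.Three.v_nine]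
    rw [hv1, hSP]
    simp only [map_mul, map_inv₀, hc1, z_pow hρ0 hρ, Pool.Agent.Y703.CT.kap_val hv hC, h18, hAV,
      inv_one, mul_one]
    generalize v (Rc.be L Ω (fun i => eq0 (π i)) (Pool.Agent.Y703.CT.Xc π fun j => -e j)
      Finset.univ) = s
    have h4 : v lam ^ 4 ≠ 0 := pow_ne_zero _ hl
    rw [mul_assoc, inv_mul_eq_iff_eq_mul₀ h4, ← mul_assoc (v lam ^ 4), ← pow_add,
      ← mul_assoc (v lam), ← pow_succ', mul_right_comm, ← pow_succ]
    congr 2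
    ring

/-- **L0-ANM.** -/
theorem anm_of (hW : S_WPD) (hc : S_CMB) : S_ANM := by
  intro J _ π e h hn hk
  have hJ : Nonempty J := hk.nonempty
  obtain ⟨F, hF, hval⟩ := val_gen hW J π e h hn
  have hmain : ∀ (Γ : Type) [LinearOrderedCommGroupWithZero Γ] (v : Valuation ℂ Γ), v 3 < 1 →
      ∀ (L : PeriodPair) (Ω : ℂ), Cur L Ω →
        v ((starRingEnd ℂ) (F 1) / Ω) * v lam = v lam ^ Fintype.card J := by
    intro Γ _ v hv L Ω hC
    obtain ⟨s, b, hb, hs, hval⟩ := hval Γ v hv L Ω hC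
    have hbne : b Finset.univ ≠ 0 := by
      refine hc J (fun j k => cs (π j) (π k)) (fun i => nq (π i)) (fun i => yq (π i)) e b ?_ h.e0
        hb.1 hb.2 hn hk
      intro j k hjk
      exact (Pool.Agent.Y350.CT.rec (π j) (π k) (h.pq j) (h.pq k) (h.nd j k hjk)).symm
    rw [hval, hs.eq_one hv hbne, mul_one]
  refine ⟨F, hF, ?_, hmain⟩
  intro h0
  obtain ⟨B, hB⟩ := Pool.Agent.Y715.T.Fin.exists_over_three
  obtain ⟨θ, hθ, hL⟩ := Pool.Agent.Y696.exists_cur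
  have h1 := hmain _ B.valuation hB _ _ hL
  rw [h0, map_zero, zero_div, map_zero, zero_mul] at h1
  exact pow_ne_zero _ lam_ne h1.symm

end Pool.Agent.D0H69.L0
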