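import Pool.Agent.Y715.Idn

/-!
# Project L0: sums of functions with a distribution relation

The same as `Pool/Agent/Y715/Dist.lean` and `Pool/Agent/Y715/Idn.lean`, for any function.
-/

set_option autoImplicit false

open Filter
open scoped Topology PeriodPair

namespace Pool.Agent.D0H69.L0

namespace Dst

open Pool.Agent.W192.HK Pool.Agent.TH936.CM Pool.Agent.TH936.PU
open Pool.Agent.Y715.Dist Pool.Agent.Y715.Idn

variable {R : Subring ℂ} {ι : Type*} [DecidableEq ι]

/-- a function `Φ c x` (the value at `x / c`) with the distribution relation with the factor `m` -/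
structure Dn (Φ : R → R → ℂ) (m : R → ℂ) : Prop where
  per : ∀ c x y : R, c ≠ 0 → x - y ∈ sp c → Φ c x = Φ c y
  can : ∀ a c x : R, a ≠ 0 → c ≠ 0 → Φ (a * c) (a * x) = Φ c x
  dist : ∀ a c x : R, a ≠ 0 → c ≠ 0 → Sm a (fun t => Φ (a * c) (x + c * t)) = m a * Φ c x

variable {Φ : R → R → ℂ} {m : R → ℂ}

open Classical in
/-- one more prime -/
theorem sum_Dn (hΦ : Dn Φ m) (hfin : ∀ q : R, q ≠ 0 → Finite (R ⧸ sp q))
    {a c : R} (hc : c ≠ 0) (ha : a ≠ 0) {χ : R → ℂ} {ρ : ℂ}
    (hχ : ∀ x y : R, x - y ∈ sp c → χ x = χ y) (hχa : ∀ x : R, χ (a * x) = ρ * χ x) :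
    Sm (a * c) (fun x => (if x ∈ sp a then 0 else χ x) * Φ (a * c) x) =
      (m a - ρ) * Sm c (fun x => χ x * Φ c x) := by
  have hac : a * c ≠ 0 := mul_ne_zero ha hc
  have hper : ∀ x y : R, x - y ∈ sp (a * c) → χ x * Φ (a * c) x = χ y * Φ (a * c) y := by
    intro x y h
    rw [hΦ.per _ _ _ hac h, hχ x y]
    rw [Ideal.mem_span_singleton'] at h ⊢
    obtain ⟨b, hb⟩ := h
    exact ⟨b * a, by linear_combination hb⟩
  have h1 := Sm_mul hc hfin ha hper
  have h2 := Sm_div hc hfin ha hper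
  have h3 : Sm (a * c) (fun x => χ x * Φ (a * c) x) =
      Sm (a * c) (fun x => (if x ∈ sp a then 0 else χ x) * Φ (a * c) x) +
      Sm (a * c) (fun x => if x ∈ sp a then χ x * Φ (a * c) x else 0) := by
    rw [← Sm_add]
    refine Finset.sum_congr rfl fun x _ => ?_
    by_cases hx : x ∈ sp a
    · simp [hx]
    · simp [hx]
  have h4 : Sm c (fun x => Sm a (fun t => χ (x + c * t) * Φ (a * c) (x + c * t))) =
      m a * Sm c (fun x => χ x * Φ c x) := by
    rw [← Sm_mul_left]
    refine Finset.sum_congr rfl fun x _ => ?_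
    have h5 : ∀ t : R, χ (x + c * t) = χ x := by
      intro t
      refine hχ _ _ ?_
      rw [add_sub_cancel_left, Ideal.mem_span_singleton']
      exact ⟨t, mul_comm _ _⟩
    simp only [h5]
    rw [Sm_mul_left, hΦ.dist a c x ha hc]
    ring
  have h6 : Sm c (fun x => χ (a * x) * Φ (a * c) (a * x)) =
      ρ * Sm c (fun x => χ x * Φ c x) := by
    rw [← Sm_mul_left]
    refine Finset.sum_congr rfl fun x _ => ?_
    show χ (a * x) * Φ (a * c) (a * x) = ρ * (χ x * Φ c x)
    rw [hΦ.can a c x ha hc, hχa]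
    ring
  rw [h1, h4] at h3
  rw [h2, h6] at h3
  linear_combination -h3

variable {π : ι → R} {X : ι → R → ℂ}

/-- the sums -/
noncomputable def SF (Φ : R → R → ℂ) (π : ι → R) (X : ι → R → ℂ) (T : Finset ι) : ℂ :=
  Sm (cc π T) (fun x => XT X T x * Φ (cc π T) x)

theorem sum_YF (hΦ : Dn Φ m) (hfin : ∀ q : R, q ≠ 0 → Finite (R ⧸ sp q))
    (h : Fm π X) (T U : Finset ι) (hTU : Disjoint T U) :
    Sm (cc π (T ∪ U)) (fun x => YY π X T U x * Φ (cc π (T ∪ U)) x) =
      (∏ i ∈ U, (m (π i) - XT X T (π i))) * SF Φ π X T := by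
  classical
  induction U using Finset.induction_on with
  | empty =>
    rw [Finset.union_empty, Finset.prod_empty, one_mul]
    unfold SF YY
    simp only [Finset.prod_empty, mul_one]
  | insert j U hj ih =>
    have hjT : j ∉ T := fun h1 => Finset.disjoint_left.1 hTU h1 (Finset.mem_insert_self j U)
    have hTU' : Disjoint T U := Finset.disjoint_of_subset_right (Finset.subset_insert _ _) hTU
    have hjTU : j ∉ T ∪ U := by
      rw [Finset.mem_union]
      tauto
    rw [Finset.union_insert, cc_insert hjTU, Finset.prod_insert hj, mul_assoc, ← ih hTU']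
    have h1 := sum_Dn hΦ hfin (h.cc_ne (T ∪ U)) (h.ne j)
      (χ := YY π X T U) (ρ := XT X T (π j)) ?_ ?_
    · rw [← h1]
      refine Finset.sum_congr rfl fun x _ => ?_
      beta_reduce
      congr 1
      unfold YY
      rw [Finset.prod_insert hj]
      by_cases hx : x ∈ sp (π j)
      · rw [ind_mem hx, if_pos hx]
        ring
      · rw [ind_notMem hx, if_neg hx]
        ring
    · intro x y hxy
      unfold YY
      rw [XT_per h Finset.subset_union_left hxy]
      congr 1
      exact Finset.prod_congr rfl fun i hi =>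
        ind_per (cc_mem (Finset.mem_union_right T hi) hxy)
    · intro x
      unfold YY
      rw [XT_mul h]
      have h2 : ∏ i ∈ U, ind (π i) (π j * x) = ∏ i ∈ U, ind (π i) x :=
        Finset.prod_congr rfl fun i hi => ind_mul (h.cop j i fun e => hj (e ▸ hi)) x
      rw [h2]
      ring

/-- **The identity.** -/
theorem mainF (hΦ : Dn Φ m) (hfin : ∀ q : R, q ≠ 0 → Finite (R ⧸ sp q))
    (h : Fm π X) (S : Finset ι) :
    Sm (cc π S) (fun x => (∏ i ∈ S, (ind (π i) x - X i x)) * Φ (cc π S) x) =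
      ∑ T ∈ S.powerset, (-1) ^ T.card * ((∏ i ∈ S \ T, (m (π i) - XT X T (π i))) *
        SF Φ π X T) := by
  classical
  have h1 : ∀ x : R, ∏ i ∈ S, (ind (π i) x - X i x) =
      ∑ T ∈ S.powerset, (-1) ^ T.card * YY π X T (S \ T) x := by
    intro x
    have h2 : ∀ i ∈ S, ind (π i) x - X i x = -X i x + ind (π i) x := fun i _ => by ring
    rw [Finset.prod_congr rfl h2, Finset.prod_add]
    refine Finset.sum_congr rfl fun T _ => ?_
    unfold YY XT
    rw [Finset.prod_neg]
    ring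
  have h3 : Sm (cc π S) (fun x => (∏ i ∈ S, (ind (π i) x - X i x)) * Φ (cc π S) x) =
      ∑ T ∈ S.powerset, (-1) ^ T.card *
        Sm (cc π S) (fun x => YY π X T (S \ T) x * Φ (cc π S) x) := by
    unfold Sm
    simp only [h1, Finset.sum_mul, Finset.mul_sum]
    rw [Finset.sum_comm]
    refine Finset.sum_congr rfl fun T _ => Finset.sum_congr rfl fun x _ => by ring
  rw [h3]
  refine Finset.sum_congr rfl fun T hT => ?_
  rw [Finset.mem_powerset] at hT
  have h4 := sum_YF hΦ hfin h T (S \ T) Finset.disjoint_sdiff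
  rw [Finset.union_sdiff_of_subset hT] at h4
  rw [h4]

/-- a unit -/
theorem SF_unit (hΦ : Dn Φ m) (hfin : ∀ q : R, q ≠ 0 → Finite (R ⧸ sp q))
    (h : Fm π X) {u : R} (hu : IsUnit u) {κ : ℂ} (hκ : ∀ c x : R, c ≠ 0 → Φ c (u * x) = κ * Φ c x)
    (T : Finset ι) : SF Φ π X T = XT X T u * κ * SF Φ π X T := by
  classical
  have hc := h.cc_ne T
  have : Fintype (R ⧸ sp (cc π T)) := @Fintype.ofFinite _ (hfin _ hc)
  have h1 : SF Φ π X T = Sm (cc π T) (fun x => XT X T (u * x) * Φ (cc π T) (u * x)) := by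
    unfold SF
    rw [Sm_eq, Sm_eq]
    have h2 : IsCoprime (cc π T) u := by
      obtain ⟨w, hw⟩ := hu.exists_left_inv
      exact ⟨0, w, by rw [hw]; ring⟩
    exact (sum_mul_bij h2 (F := fun x => XT X T x * Φ (cc π T) x) fun x y hxy => by
      show XT X T x * Φ (cc π T) x = XT X T y * Φ (cc π T) y
      rw [XT_per h (Finset.Subset.refl T) hxy, hΦ.per _ _ _ hc hxy]).symm
  have h2 : ∀ x : R, XT X T (u * x) * Φ (cc π T) (u * x) =
      XT X T u * κ * (XT X T x * Φ (cc π T) x) := by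
    intro x
    rw [XT_mul h, hκ _ _ hc]
    ring
  calc SF Φ π X T = Sm (cc π T) (fun x => XT X T (u * x) * Φ (cc π T) (u * x)) := h1
    _ = Sm (cc π T) (fun x => XT X T u * κ * (XT X T x * Φ (cc π T) x)) := by simp only [h2]
    _ = XT X T u * κ * SF Φ π X T := Sm_mul_left _ _ _

/-- the empty set -/
theorem SF_empty (hΦ : Dn Φ m) (hfin : ∀ q : R, q ≠ 0 → Finite (R ⧸ sp q)) :
    SF Φ π X ∅ = Φ 1 0 := by
  unfold SF
  have h1 : cc π ∅ = 1 := Finset.prod_empty
  rw [h1, Sm_one hfin]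
  · unfold XT
    rw [Finset.prod_empty, one_mul]
  · intro x y
    have h2 : x - y ∈ sp (1 : R) := by
      rw [sp_one_eq]
      exact Submodule.mem_top
    rw [hΦ.per 1 x y one_ne_zero h2]
    unfold XT
    rw [Finset.prod_empty, Finset.prod_empty]

end Dst

end Pool.Agent.D0H69.L0
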