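import Pool.Agent.D0H69.L0.Sec

/-!
# Project L0: the recursion of second order
-/

set_option autoImplicit false
set_option linter.unusedSectionVars false

open Filter
open scoped Topology PeriodPair

namespace Pool.Agent.D0H69.L0

namespace Rc

open H667R3 Pool.Agent.W192.HK Pool.Agent.TH936.CM Pool.Agent.TH936.PU
open Pool.Agent.Y715.Dist Pool.Agent.Y715.Idn Pool.Agent.Y715.T.Lat Pool.Agent.Y696
open Pool.Agent.Y715.Two (v_nat v_int v_unit v_mul_le_of)
open Pool.Agent.Y715.T.Three Pool.Agent.Y715.T.Cg Pool.Agent.Y715.T.Comb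
open Pool.Agent.Y703.CT.Ana
open Dst Wp Sec

variable {Γ : Type*} [LinearOrderedCommGroupWithZero Γ] {v : Valuation ℂ Γ}
  {L : PeriodPair} {Ω : ℂ} {ι : Type*} [DecidableEq ι]
  {π : ι → eis} {X : ι → eis → ℂ} {a : ι → ι → ZMod 3} {q y r : ι → ZMod 3}

/-! ### generalities -/

lemma uniq (h3 : v 3 < 1) {s : ℂ} {d e : ZMod 3} (h1 : Cg v s d) (h2 : Cg v s e) : d = e := by
  by_contra hne
  have h := h1.add h3 (h2.neg h3)
  rw [add_neg_cancel] at h
  have h4 := h.eq_one h3 (fun h5 => hne (by linear_combination h5))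
  rw [map_zero] at h4
  exact zero_ne_one h4

/-- the difference of two products -/
lemma pd (h3 : v 3 < 1) {κ : Type*} [DecidableEq κ] {t : ℂ} (ht : t ≠ 0) (ht1 : v t < 1)
    {A d : κ → ℂ} {m δ : κ → ZMod 3} (U : Finset κ) (hA : ∀ i ∈ U, Cg v (A i / t) (m i))
    (hd : ∀ i ∈ U, Cg v (d i / t ^ 2) (δ i)) :
    Cg v ((∏ i ∈ U, (A i + d i)) / t ^ U.card) (∏ i ∈ U, m i) ∧
    Cg v ((∏ i ∈ U, (A i + d i) - ∏ i ∈ U, A i) / t ^ (U.card + 1))
      (∑ k ∈ U, δ k * ∏ i ∈ U.erase k, m i) := by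
  induction U using Finset.induction_on with
  | empty =>
    refine ⟨?_, ?_⟩
    · rw [Finset.prod_empty, Finset.prod_empty, Finset.card_empty, pow_zero, div_one]
      exact Cg.one (by rw [sub_self, map_zero]; exact zero_lt_one)
    · rw [Finset.prod_empty, Finset.prod_empty, sub_self, zero_div, Finset.sum_empty]
      exact Cg.zero (by rw [map_zero]; exact zero_lt_one)
  | insert j U hj ih =>
    obtain ⟨ih1, ih2⟩ := ih (fun i hi => hA i (Finset.mem_insert_of_mem hi))
      (fun i hi => hd i (Finset.mem_insert_of_mem hi))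
    have hAj := hA j (Finset.mem_insert_self _ _)
    have hdj := hd j (Finset.mem_insert_self _ _)
    rw [Finset.prod_insert hj, Finset.prod_insert hj, Finset.prod_insert hj,
      Finset.card_insert_of_notMem hj]
    refine ⟨?_, ?_⟩
    · have e : ((A j + d j) * ∏ i ∈ U, (A i + d i)) / t ^ (U.card + 1) =
          (A j / t + t * (d j / t ^ 2)) * ((∏ i ∈ U, (A i + d i)) / t ^ U.card) := by
        have e0 : A j / t + t * (d j / t ^ 2) = (A j + d j) / t := by
          field_simp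
        rw [e0, pow_succ]
        field_simp
      rw [e]
      refine Cg.mul h3 ?_ ih1
      refine hAj.of_sub ?_
      rw [add_sub_cancel_left]
      exact (v_mul_le_of le_rfl hdj.le).trans_lt ht1
    · have e : ((A j + d j) * ∏ i ∈ U, (A i + d i) - A j * ∏ i ∈ U, A i) /
          t ^ (U.card + 1 + 1) =
          (d j / t ^ 2) * ((∏ i ∈ U, (A i + d i)) / t ^ U.card) +
          (A j / t) * ((∏ i ∈ U, (A i + d i) - ∏ i ∈ U, A i) / t ^ (U.card + 1)) := by
        field_simp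
        ring
      rw [e, Finset.sum_insert hj, Finset.erase_insert hj]
      refine Cg.add h3 (hdj.mul h3 ih1) ?_
      have e2 : ∑ k ∈ U, δ k * ∏ i ∈ (insert j U).erase k, m i =
          m j * ∑ k ∈ U, δ k * ∏ i ∈ U.erase k, m i := by
        rw [Finset.mul_sum]
        refine Finset.sum_congr rfl fun k hk => ?_
        have hkj : j ≠ k := fun h => hj (h ▸ hk)
        rw [Finset.erase_insert_of_ne hkj, Finset.prod_insert
          (fun h => hj (Finset.mem_of_mem_erase h))]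
        ring
      rw [e2]
      exact hAj.mul h3 ih2

/-- the data of second order -/
structure Fz (v : Valuation ℂ Γ) (π : ι → eis) (X : ι → eis → ℂ)
    (a : ι → ι → ZMod 3) (q y r : ι → ZMod 3) : Prop extends Fy v π X om a q where
  d1 : ∀ i, Cg v (((π i : ℂ) - 1) / (1 - om) ^ 2) (q i)
  dN : ∀ i, Cg v (((Nat.card (eis ⧸ sp (π i)) : ℂ) - 1) / (1 - om) ^ 2) (-q i)
  dy : ∀ i, Cg v ((((π i : ℂ) - 1) + ((Nat.card (eis ⧸ sp (π i)) : ℂ) - 1)) / (1 - om) ^ 3) (y i)
  xo : ∀ i, ∃ n : ℕ, X i omr = om ^ n ∧ (n : ZMod 3) = -r i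

lemma om_pow_eq {m n : ℕ} (h : (m : ZMod 3) = n) : om ^ m = om ^ n := by
  have h1 : m % 3 = n % 3 := (ZMod.natCast_eq_natCast_iff' m n 3).1 h
  rw [← Nat.div_add_mod m 3, ← Nat.div_add_mod n 3, h1, pow_add, pow_add, pow_mul, pow_mul,
    om_cube, one_pow, one_pow]

lemma om_ne_one : om ≠ 1 := by
  intro h
  have := om_sq
  rw [h] at this
  norm_num at this

lemma om2_ne_one : om ^ 2 ≠ 1 := by
  intro h
  apply om_ne_one
  have h1 := om_cube
  rw [pow_succ, h, one_mul] at h1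
  exact h1

section main

variable (h3 : v 3 < 1) (hC : Cur L Ω)
  (hfin : ∀ q : eis, q ≠ 0 → Finite (eis ⧸ sp q)) (h : Fz v π X a q y r) (hz : Zt v om)
  [Fintype (eis ⧸ (sp 3 : Ideal eis))]
  (h3π : ∀ i, π i - 1 ∈ (sp 3 : Ideal eis)) (hW : S_WPD)

include h in
lemma XT_om (T : Finset ι) : ∃ n : ℕ, XT X T omr = om ^ n ∧ (n : ZMod 3) = -∑ i ∈ T, r i := by
  choose n hn1 hn2 using h.xo
  refine ⟨∑ i ∈ T, n i, ?_, ?_⟩
  · unfold XT
    rw [← Finset.prod_pow_eq_pow_sum]
    exact Finset.prod_congr rfl fun i _ => hn1 i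
  · push_cast
    rw [← Finset.sum_neg_distrib]
    exact Finset.sum_congr rfl fun i _ => hn2 i

include hC hfin h hW in
lemma B1_zero {T : Finset ι} (hT : ∑ i ∈ T, r i ≠ 1) : B1 L Ω π X T = 0 := by
  have hu : IsUnit omr := (unit_list _).2 (by simp)
  have h1 := SF_unit (dn1 hC hW) hfin h.toFm hu (κ := om) (fun c x _ => P1_om hC x) T
  obtain ⟨n, hn1, hn2⟩ := XT_om h T
  rw [hn1, ← pow_succ] at h1
  have h2 : om ^ (n + 1) ≠ 1 := by
    intro h4
    apply hT
    have h5 : (((n + 1 : ℕ) : ℕ) : ZMod 3) = 0 := by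
      rw [ZMod.natCast_eq_zero_iff]
      have h6 : (n + 1) % 3 = 0 ∨ (n + 1) % 3 = 1 ∨ (n + 1) % 3 = 2 := by omega
      have h7 : om ^ (n + 1) = om ^ ((n + 1) % 3) := by
        apply om_pow_eq
        rw [ZMod.natCast_mod]
      rcases h6 with h6 | h6 | h6
      · omega
      · rw [h6, pow_one] at h7
        exact absurd (h7.symm.trans h4) om_ne_one
      · rw [h6] at h7
        exact absurd (h7.symm.trans h4) om2_ne_one
    push_cast at h5
    rw [hn2] at h5
    linear_combination -h5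
  have h4 : (om ^ (n + 1) - 1) * SF (P1 L Ω) π X T = 0 := by linear_combination -h1
  exact (mul_eq_zero.1 h4).resolve_left (sub_ne_zero.2 h2)

include hC hfin h hW in
lemma B2_zero {T : Finset ι} (hT : ∑ i ∈ T, r i ≠ -1) : B2 L Ω π X T = 0 := by
  have hu : IsUnit omr := (unit_list _).2 (by simp)
  have h1 := SF_unit (dn2 hC hW) hfin h.toFm hu (κ := om ^ 2) (fun c x _ => P2_om hC x) T
  obtain ⟨n, hn1, hn2⟩ := XT_om h T
  rw [hn1, ← pow_add] at h1
  have h2 : om ^ (n + 2) ≠ 1 := by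
    intro h4
    apply hT
    have h5 : (((n + 2 : ℕ) : ℕ) : ZMod 3) = 0 := by
      rw [ZMod.natCast_eq_zero_iff]
      have h6 : (n + 2) % 3 = 0 ∨ (n + 2) % 3 = 1 ∨ (n + 2) % 3 = 2 := by omega
      have h7 : om ^ (n + 2) = om ^ ((n + 2) % 3) := by
        apply om_pow_eq
        rw [ZMod.natCast_mod]
      rcases h6 with h6 | h6 | h6
      · omega
      · rw [h6, pow_one] at h7
        exact absurd (h7.symm.trans h4) om_ne_one
      · rw [h6] at h7
        exact absurd (h7.symm.trans h4) om2_ne_one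
    push_cast at h5
    rw [hn2] at h5
    have h8 : (3 : ZMod 3) = 0 := by decide
    linear_combination -h5 + h8
  have h4 : (om ^ (n + 2) - 1) * SF (P2 L Ω) π X T = 0 := by linear_combination -h1
  exact (mul_eq_zero.1 h4).resolve_left (sub_ne_zero.2 h2)

lemma AV_empty (hC : Cur L Ω) (hfin : ∀ q : eis, q ≠ 0 → Finite (eis ⧸ sp q)) :
    AV L Ω π X ∅ = 1 := by
  unfold AV
  rw [SQ_empty hfin, div_self (kap_ne hC)]

include hC hfin hW in
lemma B1_empty : B1 L Ω π X ∅ = 0 := by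
  unfold B1
  rw [SF_empty (dn1 hC hW) hfin, P1_zero]

include hC hfin hW in
lemma B2_empty : B2 L Ω π X ∅ = 0 := by
  unfold B2
  rw [SF_empty (dn2 hC hW) hfin, P2_zero]

lemma three_eq : (3 : ℂ) = -om ^ 2 * (1 - om) ^ 2 := by
  linear_combination (om ^ 2 - 3 * om + 3) * om_sq

include h3 hz in
lemma cg_three : Cg v (3 / (1 - om) ^ 2) (-1) := by
  have h1 := hz.ne
  have e : (3 : ℂ) / (1 - om) ^ 2 = -om ^ 2 := by
    rw [div_eq_iff (pow_ne_zero _ h1)]
    exact three_eq
  rw [e]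
  refine Cg.neg h3 (Cg.one ?_)
  exact hz.pow 2

include h3 hC hfin h hz h3π in
lemma AV_cg [Fintype ι] {T : Finset ι} (hT : T.Nonempty) :
    Cg v (AV L Ω π X T / (1 - om) ^ (T.card + 1)) (-D a q T) := by
  have hzl : v (1 - om) = v lam := om_val h3
  have h1 := sT_cg h3 hC hfin h.toFy hz hzl h3π T hT
  have h2 := hz.ne
  have hκ := kap_ne hC
  obtain ⟨m, hm⟩ : ∃ m, T.card = m + 1 := ⟨T.card - 1, by
    have := Finset.card_pos.2 hT
    omega⟩
  have e : AV L Ω π X T / (1 - om) ^ (T.card + 1) =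
      (3 / (1 - om) ^ 2) * sT L Ω π X om T := by
    unfold AV sT
    rw [hm, Nat.add_sub_cancel]
    field_simp
    ring
  rw [e]
  have h4 := (cg_three h3 hz).mul h3 h1
  rwa [neg_one_mul] at h4

/-- the normalized sums of second order -/
noncomputable def be (L : PeriodPair) (Ω : ℂ) (π : ι → eis) (X : ι → eis → ℂ) (T : Finset ι) : ℂ :=
  CC L Ω π X T / (1 - om) ^ (T.card + 2)

/-- the normalized terms -/
noncomputable def Et (L : PeriodPair) (Ω : ℂ) (π : ι → eis) (X : ι → eis → ℂ) (S T : Finset ι) : ℂ :=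
  ((∏ i ∈ S \ T, ((π i : ℂ) - XT X T (π i))) * AV L Ω π X T -
    2 * ((∏ i ∈ S \ T, ((π i : ℂ) ^ 2 - XT X T (π i))) * B1 L Ω π X T) +
    2 * ((∏ i ∈ S \ T, ((π i : ℂ) ^ 4 - XT X T (π i))) * B2 L Ω π X T)) / (1 - om) ^ (S.card + 2)

include h3 hC hfin h hz h3π hW in
/-- the sum of the terms -/
lemma sum_Et {S : Finset ι} (hS : S.Nonempty) :
    ∑ T ∈ S.powerset, (-1) ^ T.card * Et L Ω π X S T =
      (-(∏ i ∈ S, ((Nat.card (eis ⧸ sp (π i)) : ℂ) - 1)) -
      Sm (cc π S) (fun x => PX π X S x * ep L Ω (Ω * x / cc π S))) / (1 - om) ^ (S.card + 2) := by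
  rw [idn2 h3 hC hfin h.toFy h3π hW hS, Finset.sum_div]
  refine Finset.sum_congr rfl fun T _ => ?_
  unfold Et
  ring

lemma aux_pow {t : ℂ} (ht : t ≠ 0) (P : ℂ) (k : ℕ) :
    P / t ^ (k + 2 + 2) = t ^ k * (P / (t ^ 2) ^ (k + 2)) := by
  have e : (t ^ 2) ^ (k + 2) = t ^ k * t ^ (k + 2 + 2) := by
    rw [← pow_mul, ← pow_add]
    congr 1
    ring
  rw [e]
  field_simp

/-- the indicator of the sets with two elements -/
def tw (S : Finset ι) : ZMod 3 := if S.card = 2 then 1 else 0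

include h3 hz in
lemma cg_pow {S : Finset ι} (hS : 2 ≤ S.card) : Cg v ((1 - om) ^ (S.card - 2)) (tw S) := by
  unfold tw
  split_ifs with h1
  · rw [h1, Nat.sub_self, pow_zero]
    exact Cg.one (by rw [sub_self, map_zero]; exact zero_lt_one)
  · apply Cg.zero
    rw [map_pow]
    exact pow_lt_one' hz.lt (by omega)

include h3 h hz in
/-- the products of few small factors -/
lemma cg_prod2 {S : Finset ι} (hS : 2 ≤ S.card) {A : ι → ℂ} {m : ι → ZMod 3}
    (hA : ∀ i, Cg v (A i / (1 - om) ^ 2) (m i)) :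
    Cg v ((∏ i ∈ S, A i) / (1 - om) ^ (S.card + 2)) (tw S * ∏ i ∈ S, m i) := by
  have h1 := hz.ne
  have e : (∏ i ∈ S, A i) / (1 - om) ^ (S.card + 2) =
      (1 - om) ^ (S.card - 2) * ∏ i ∈ S, (A i / (1 - om) ^ 2) := by
    rw [Finset.prod_div_distrib, Finset.prod_const]
    obtain ⟨k, hk⟩ : ∃ k, S.card = k + 2 := ⟨S.card - 2, by omega⟩
    rw [hk, Nat.add_sub_cancel]
    exact aux_pow h1 _ k
  rw [e]
  exact (cg_pow h3 hz hS).mul h3 (Cg.prod h3 _ fun i _ => hA i)

include h3 hC hfin h hz hW in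
/-- the term of the empty set -/
lemma Et_empty {S : Finset ι} (hS : 2 ≤ S.card) :
    Cg v (Et L Ω π X S ∅) (tw S * ∏ i ∈ S, q i) := by
  have e : Et L Ω π X S ∅ = (∏ i ∈ S, ((π i : ℂ) - 1)) / (1 - om) ^ (S.card + 2) := by
    unfold Et
    rw [B1_empty hC hfin hW, B2_empty hC hfin hW, AV_empty hC hfin, Finset.sdiff_empty]
    unfold XT
    simp only [Finset.prod_empty]
    ring
  rw [e]
  exact cg_prod2 h3 h hz hS h.d1

include h3 hC hfin h hz in
/-- the right hand side -/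
lemma rhs_cg {S : Finset ι} (hS : 2 ≤ S.card) :
    Cg v ((-(∏ i ∈ S, ((Nat.card (eis ⧸ sp (π i)) : ℂ) - 1)) -
      Sm (cc π S) (fun x => PX π X S x * ep L Ω (Ω * x / cc π S))) / (1 - om) ^ (S.card + 2))
      (-(tw S * ∏ i ∈ S, q i)) := by
  have h1 := hz.ne
  have hzl : v (1 - om) = v lam := om_val h3
  have hS' : S.Nonempty := Finset.card_pos.1 (by omega)
  have h2 := (cg_prod2 h3 h hz hS h.dN).neg h3
  have e1 : tw S * ∏ i ∈ S, -q i = tw S * ∏ i ∈ S, q i := by
    unfold tw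
    split_ifs with h4
    · rw [Finset.prod_neg, h4]
      ring
    · ring
  rw [e1] at h2
  refine h2.of_sub ?_
  have e2 : (-(∏ i ∈ S, ((Nat.card (eis ⧸ sp (π i)) : ℂ) - 1)) -
      Sm (cc π S) (fun x => PX π X S x * ep L Ω (Ω * x / cc π S))) / (1 - om) ^ (S.card + 2) -
      -((∏ i ∈ S, ((Nat.card (eis ⧸ sp (π i)) : ℂ) - 1)) / (1 - om) ^ (S.card + 2)) =
      -(Sm (cc π S) (fun x => PX π X S x * ep L Ω (Ω * x / cc π S)) / (1 - om) ^ (S.card + 2)) := by
    ring
  rw [e2, v.map_neg, map_div₀, map_pow, hzl, div_lt_one₀ (pow_pos lam_pos _)]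
  exact est2 h3 hC hfin h.toFy hz hzl hS'

include h3 hC hfin h hz h3π hW in
/-- the terms -/
lemma Et_cg [Fintype ι] {S T : Finset ι} (hTS : T ⊆ S) (hT : T.Nonempty) {d : ZMod 3}
    (hd : Cg v (be L Ω π X T) d) :
    Cg v (Et L Ω π X S T) (d * ∏ i ∈ S \ T, ∑ j ∈ T, a i j +
      if ∑ i ∈ T, r i = 1 then D a q T * ∑ k ∈ S \ T, q k * ∏ i ∈ (S \ T).erase k, ∑ j ∈ T, a i j
      else 0) := by
  have h1 := hz.ne
  have hzl : v (1 - om) = v lam := om_val h3
  have hcard : S.card = T.card + (S \ T).card := by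
    rw [Finset.card_sdiff_of_subset hTS]
    have := Finset.card_le_card hTS
    omega
  have hA := AV_cg h3 hC hfin h hz h3π hT
  -- the factors
  have hfac : ∀ i ∈ S \ T, Cg v (((π i : ℂ) - XT X T (π i)) / (1 - om)) (∑ j ∈ T, a i j) := by
    intro i hi
    rw [Finset.mem_sdiff] at hi
    have h7 : ∀ j ∈ T, ∃ n : ℕ, X j (π i) = om ^ n ∧ (n : ZMod 3) = a i j := fun j hj =>
      h.cub i j fun hij => hi.2 (hij ▸ hj)
    choose! n hn1 hn2 using h7
    have h8 : XT X T (π i) = om ^ (∑ j ∈ T, n j) := by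
      unfold XT
      rw [← Finset.prod_pow_eq_pow_sum]
      exact Finset.prod_congr rfl fun j hj => hn1 j hj
    have h9 : ((π i : ℂ) - XT X T (π i)) / (1 - om) =
        (1 - om) * (((π i : ℂ) - 1) / (1 - om) ^ 2) + (1 - om ^ (∑ j ∈ T, n j)) / (1 - om) := by
      rw [h8]
      field_simp
      ring
    rw [h9]
    have h10 : (∑ j ∈ T, a i j) = 0 + ((∑ j ∈ T, n j : ℕ) : ZMod 3) := by
      rw [zero_add]
      push_cast
      exact Finset.sum_congr rfl fun j hj => (hn2 j hj).symm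
    rw [h10]
    refine (Cg.zero ?_).add h3 (Zt.quot h3 hz _)
    exact (v_mul_le_of le_rfl (h.d1 i).le).trans_lt hz.lt
  have hone : ∀ i, v ((π i : ℂ) - 1) < 1 := fun i => (h.lin i).trans_lt h3
  have hpi : ∀ i, v (π i : ℂ) = 1 := fun i => v_unit (hone i)
  -- the differences
  have hd2 : ∀ i ∈ S \ T, Cg v (((π i : ℂ) ^ 2 - π i) / (1 - om) ^ 2) (q i) := by
    intro i _
    have e : ((π i : ℂ) ^ 2 - π i) / (1 - om) ^ 2 = π i * (((π i : ℂ) - 1) / (1 - om) ^ 2) := by
      ring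
    rw [e]
    have h4 := (Cg.one (hone i)).mul h3 (h.d1 i)
    rwa [one_mul] at h4
  have hd4 : ∀ i ∈ S \ T, Cg v (((π i : ℂ) ^ 4 - π i) / (1 - om) ^ 2) 0 := by
    intro i _
    have e : ((π i : ℂ) ^ 4 - π i) / (1 - om) ^ 2 =
        (π i * (((π i : ℂ) - 1) ^ 2 + 3 * π i)) * (((π i : ℂ) - 1) / (1 - om) ^ 2) := by
      ring
    rw [e]
    apply Cg.zero
    refine (v_mul_le_of le_rfl (h.d1 i).le).trans_lt ?_
    rw [map_mul, hpi, one_mul]
    refine v.map_add_lt ?_ ?_
    · rw [map_pow]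
      exact pow_lt_one' (hone i) two_ne_zero
    · rw [map_mul, hpi, mul_one]
      exact h3
  have p2 := (pd h3 h1 hz.lt (S \ T) hfac hd2).2
  have p4 := (pd h3 h1 hz.lt (S \ T) hfac hd4).2
  have f2 : ∀ i, ((π i : ℂ) - XT X T (π i)) + ((π i : ℂ) ^ 2 - π i) =
      (π i : ℂ) ^ 2 - XT X T (π i) := fun i => by ring
  have f4 : ∀ i, ((π i : ℂ) - XT X T (π i)) + ((π i : ℂ) ^ 4 - π i) =
      (π i : ℂ) ^ 4 - XT X T (π i) := fun i => by ring
  simp only [f2] at p2
  simp only [f4, zero_mul, Finset.sum_const_zero] at p4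
  -- the sums of `X` and `X ^ 2`
  have hCle : v (CC L Ω π X T / (1 - om) ^ (T.card + 1)) < 1 := by
    have e : CC L Ω π X T / (1 - om) ^ (T.card + 1) = (1 - om) * be L Ω π X T := by
      unfold be
      field_simp
      ring
    rw [e]
    exact (v_mul_le_of le_rfl hd.le).trans_lt hz.lt
  have hB1 : Cg v (2 * B1 L Ω π X T / (1 - om) ^ (T.card + 1))
      (if ∑ i ∈ T, r i = 1 then -D a q T else 0) := by
    split_ifs with h4
    · have h5 : B2 L Ω π X T = 0 := B2_zero hC hfin h hW (by rw [h4]; decide)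
      have e : 2 * B1 L Ω π X T = AV L Ω π X T - CC L Ω π X T := by
        unfold CC
        rw [h5]
        ring
      rw [e, sub_div]
      refine hA.of_sub ?_
      rw [sub_sub_cancel_left, v.map_neg]
      exact hCle
    · rw [B1_zero hC hfin h hW h4, mul_zero, zero_div]
      exact Cg.zero (by rw [map_zero]; exact zero_lt_one)
  have hB2 : v (2 * B2 L Ω π X T / (1 - om) ^ (T.card + 1)) ≤ 1 := by
    by_cases h4 : ∑ i ∈ T, r i = -1
    · have h5 : B1 L Ω π X T = 0 := B1_zero hC hfin h hW (by rw [h4]; decide)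
      have e : 2 * B2 L Ω π X T = CC L Ω π X T - AV L Ω π X T := by
        unfold CC
        rw [h5]
        ring
      rw [e, sub_div]
      exact v.map_sub_le hCle.le hA.le
    · rw [B2_zero hC hfin h hW h4, mul_zero, zero_div, map_zero]
      exact zero_le
  -- the terms
  set U := S \ T with hU
  set a1 := ∏ i ∈ U, ((π i : ℂ) - XT X T (π i)) with ha1
  set a2 := ∏ i ∈ U, ((π i : ℂ) ^ 2 - XT X T (π i)) with ha2
  set a4 := ∏ i ∈ U, ((π i : ℂ) ^ 4 - XT X T (π i)) with ha4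
  have hp1 : Cg v (a1 / (1 - om) ^ U.card) (∏ i ∈ U, ∑ j ∈ T, a i j) := by
    rw [ha1, ← Finset.prod_const, ← Finset.prod_div_distrib]
    exact Cg.prod h3 _ hfac
  have e : Et L Ω π X S T = be L Ω π X T * (a1 / (1 - om) ^ U.card) +
      (-(2 * B1 L Ω π X T / (1 - om) ^ (T.card + 1)) * ((a2 - a1) / (1 - om) ^ (U.card + 1)) +
      (a4 - a1) / (1 - om) ^ (U.card + 1) * (2 * B2 L Ω π X T / (1 - om) ^ (T.card + 1))) := by
    have hAV : AV L Ω π X T = CC L Ω π X T + 2 * B1 L Ω π X T - 2 * B2 L Ω π X T := by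
      unfold CC
      ring
    unfold Et be
    rw [hcard, hAV, ← hU, ← ha1, ← ha2, ← ha4]
    field_simp
    ring
  rw [e]
  refine (hd.mul h3 hp1).add h3 ?_
  have h6 : (if ∑ i ∈ T, r i = 1 then D a q T * ∑ k ∈ U, q k * ∏ i ∈ U.erase k, ∑ j ∈ T, a i j
      else 0) = -(if ∑ i ∈ T, r i = 1 then -D a q T else 0) *
        (∑ k ∈ U, q k * ∏ i ∈ U.erase k, ∑ j ∈ T, a i j) + 0 := by
    split_ifs
    · ring
    · ring
  rw [h6]
  refine ((hB1.neg h3).mul h3 p2).add h3 (Cg.zero ?_)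
  exact (v_mul_le_of le_rfl hB2).trans_lt p4.lt_one

include h3 hC hfin h hz h3π hW in
/-- one prime -/
lemma be_one (k : ι) : Cg v (be L Ω π X {k}) (y k) := by
  have h1 := hz.ne
  have hzl : v (1 - om) = v lam := om_val h3
  have hS : ({k} : Finset ι).Nonempty := Finset.singleton_nonempty k
  have hid := idn2 h3 hC hfin h.toFy h3π hW hS
  have hest := est2 h3 hC hfin h.toFy hz hzl hS
  set R : ℂ := Sm (cc π {k}) (fun x => PX π X {k} x * ep L Ω (Ω * x / cc π {k})) with hR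
  have hp : ({k} : Finset ι).powerset = {∅, {k}} := by
    ext T
    rw [Finset.mem_powerset, Finset.subset_singleton_iff, Finset.mem_insert,
      Finset.mem_singleton]
  rw [hp, Finset.sum_pair (Finset.singleton_ne_empty k).symm, Finset.card_empty,
    Finset.card_singleton, pow_zero, one_mul, pow_one, Finset.prod_singleton, Finset.sdiff_empty,
    Finset.sdiff_self, Finset.prod_singleton, Finset.prod_empty, B1_empty hC hfin hW,
    B2_empty hC hfin hW, AV_empty hC hfin] at hid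
  have e0 : XT X ∅ (π k) = 1 := by
    unfold XT
    rw [Finset.prod_empty]
  rw [e0] at hid
  have e : be L Ω π X {k} =
      (((π k : ℂ) - 1) + ((Nat.card (eis ⧸ sp (π k)) : ℂ) - 1)) / (1 - om) ^ 3 +
        R / (1 - om) ^ 3 := by
    unfold be CC
    rw [Finset.card_singleton, ← add_div]
    congr 1
    linear_combination hid
  rw [e]
  refine (h.dy k).of_sub ?_
  rw [add_sub_cancel_left, map_div₀, map_pow, hzl, div_lt_one₀ (pow_pos lam_pos _)]
  rw [Finset.card_singleton] at hest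
  exact hest

/-- the coefficient of the term of `T` -/
def co (a : ι → ι → ZMod 3) (q r : ι → ZMod 3) [Fintype ι] (d : ZMod 3) (S T : Finset ι) : ZMod 3 :=
  d * ∏ i ∈ S \ T, ∑ j ∈ T, a i j +
      if ∑ i ∈ T, r i = 1 then D a q T * ∑ k ∈ S \ T, q k * ∏ i ∈ (S \ T).erase k, ∑ j ∈ T, a i j
      else 0

include h3 hC hfin h hz h3π hW in
/-- the sums are integral -/
theorem exists_b [Fintype ι] (S : Finset ι) (hS : S.Nonempty) :
    ∃ d : ZMod 3, Cg v (be L Ω π X S) d := by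
  induction S using Finset.strongInduction with
  | H S ih =>
  by_cases h1 : S.card = 1
  · obtain ⟨k, rfl⟩ := Finset.card_eq_one.1 h1
    exact ⟨_, be_one h3 hC hfin h hz h3π hW k⟩
  · have h2 : 2 ≤ S.card := by
      have := Finset.card_pos.2 hS
      omega
    choose! d hd using ih
    have hsum := sum_Et h3 hC hfin h hz h3π hW hS
    have hmem : S ∈ S.powerset := Finset.mem_powerset_self S
    have h0 : ∅ ∈ S.powerset.erase S := by
      rw [Finset.mem_erase]
      exact ⟨hS.ne_empty.symm, Finset.empty_mem_powerset S⟩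
    rw [← Finset.add_sum_erase _ _ hmem, ← Finset.add_sum_erase _ _ h0] at hsum
    have hES : Et L Ω π X S S = be L Ω π X S := by
      unfold Et be CC
      rw [Finset.sdiff_self, Finset.prod_empty, Finset.prod_empty, Finset.prod_empty]
      ring
    have hrest : Cg v (∑ T ∈ (S.powerset.erase S).erase ∅, (-1) ^ T.card * Et L Ω π X S T)
        (∑ T ∈ (S.powerset.erase S).erase ∅, (-1) ^ T.card * co a q r (d T) S T) := by
      refine Cg.sum h3 _ fun T hT => Cg.sign h3 ?_ _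
      rw [Finset.mem_erase, Finset.mem_erase, Finset.mem_powerset] at hT
      have hTn : T.Nonempty := Finset.nonempty_iff_ne_empty.2 hT.1
      exact Et_cg h3 hC hfin h hz h3π hW hT.2.2 hTn
        (hd T (Finset.ssubset_iff_subset_ne.2 ⟨hT.2.2, hT.2.1⟩) hTn)
    have h4 := ((rhs_cg h3 hC hfin h hz h2).add h3
      (((Et_empty h3 hC hfin h hz hW h2).neg h3).add h3 (hrest.neg h3))).sign h3 S.card
    rw [← hsum, hES, Finset.card_empty, pow_zero, one_mul] at h4
    have h5 : ((-1 : ℂ) ^ S.card) * (-1) ^ S.card = 1 := by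
      rw [← mul_pow, neg_one_mul, neg_neg, one_pow]
    have h6 : ∀ A B : ℂ, (-1) ^ S.card * ((-1) ^ S.card * be L Ω π X S + (A + B) + (-A + -B)) =
        be L Ω π X S := by
      intro A B
      linear_combination (be L Ω π X S) * h5
    rw [h6] at h4
    exact ⟨_, h4⟩

include h3 hC hfin h hz h3π hW in
/-- **The recursion.** -/
theorem main [Fintype ι] : ∃ b : Finset ι → ZMod 3,
    (∀ T : Finset ι, T.Nonempty → Cg v (be L Ω π X T) (b T)) ∧ (∀ k, b {k} = y k) ∧
    ∀ S : Finset ι, 2 ≤ S.card →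
      ∑ T ∈ S.powerset.filter (fun T => T.Nonempty), (-1) ^ T.card * (b T *
          ∏ i ∈ S \ T, ∑ l ∈ T, a i l) +
        ∑ T ∈ S.powerset.filter (fun T => T.Nonempty ∧ ∑ l ∈ T, r l = 1), (-1) ^ T.card *
          (D a q T * ∑ k ∈ S \ T, q k * ∏ i ∈ (S \ T).erase k, ∑ l ∈ T, a i l) =
        if S.card = 2 then ∏ k ∈ S, q k else 0 := by
  have hex := exists_b h3 hC hfin h hz h3π hW
  choose! b hb using hex
  refine ⟨b, hb, fun k => ?_, fun S hS => ?_⟩
  · exact uniq h3 (hb {k} (Finset.singleton_nonempty k)) (be_one h3 hC hfin h hz h3π hW k)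
  · have hS' : S.Nonempty := Finset.card_pos.1 (by omega)
    have hsum := sum_Et h3 hC hfin h hz h3π hW hS'
    have h0 : ∅ ∈ S.powerset := Finset.empty_mem_powerset S
    rw [← Finset.add_sum_erase _ _ h0, Finset.card_empty, pow_zero, one_mul] at hsum
    have hrest : Cg v (∑ T ∈ S.powerset.erase ∅, (-1) ^ T.card * Et L Ω π X S T)
        (∑ T ∈ S.powerset.erase ∅, (-1) ^ T.card * co a q r (b T) S T) := by
      refine Cg.sum h3 _ fun T hT => Cg.sign h3 ?_ _
      rw [Finset.mem_erase, Finset.mem_powerset] at hT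
      have hTn : T.Nonempty := Finset.nonempty_iff_ne_empty.2 hT.1
      exact Et_cg h3 hC hfin h hz h3π hW hT.2 hTn (hb T hTn)
    have h1 := (Et_empty h3 hC hfin h hz hW hS).add h3 hrest
    rw [hsum] at h1
    have h2 := uniq h3 h1 (rhs_cg h3 hC hfin h hz hS)
    have h5 : S.powerset.filter (fun T => T.Nonempty) = S.powerset.erase ∅ := by
      ext T
      rw [Finset.mem_filter, Finset.mem_erase, Finset.nonempty_iff_ne_empty]
      tauto
    have h6 : S.powerset.filter (fun T => T.Nonempty ∧ ∑ l ∈ T, r l = 1) =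
        (S.powerset.erase ∅).filter (fun T => ∑ l ∈ T, r l = 1) := by
      ext T
      rw [Finset.mem_filter, Finset.mem_filter, Finset.mem_erase, Finset.nonempty_iff_ne_empty]
      tauto
    rw [h5, h6, Finset.sum_filter, ← Finset.sum_add_distrib]
    have h7 : ∑ T ∈ S.powerset.erase ∅, ((-1) ^ T.card * (b T * ∏ i ∈ S \ T, ∑ l ∈ T, a i l) +
        if ∑ l ∈ T, r l = 1 then (-1) ^ T.card * (D a q T * ∑ k ∈ S \ T,
          q k * ∏ i ∈ (S \ T).erase k, ∑ l ∈ T, a i l) else 0) =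
        ∑ T ∈ S.powerset.erase ∅, (-1) ^ T.card * co a q r (b T) S T := by
      refine Finset.sum_congr rfl fun T _ => ?_
      unfold co
      split_ifs
      · ring
      · ring
    rw [h7]
    have h8 : (if S.card = 2 then ∏ k ∈ S, q k else 0) = tw S * ∏ i ∈ S, q i := by
      unfold tw
      split_ifs
      · rw [one_mul]
      · rw [zero_mul]
    rw [h8]
    have h9 : ∀ t : ZMod 3, t + t + t = 0 := by decide
    linear_combination h2 - h9 (tw S * ∏ i ∈ S, q i)

end main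

end Rc

end Pool.Agent.D0H69.L0
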