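import Pool.Agent.D0H69.L0.Wp

/-!
# Project L0: the identity of second order
-/

set_option autoImplicit false
set_option linter.unusedSectionVars false

open Filter
open scoped Topology PeriodPair

namespace Pool.Agent.D0H69.L0

namespace Sec

open H667R3 Pool.Agent.W192.HK Pool.Agent.TH936.CM Pool.Agent.TH936.PU
open Pool.Agent.Y715.Dist Pool.Agent.Y715.Idn Pool.Agent.Y715.T.Lat Pool.Agent.Y696
open Pool.Agent.Y715.Two (v_nat v_int v_unit v_mul_le_of)
open Pool.Agent.Y715.T.Three Pool.Agent.Y715.T.Cg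
open Pool.Agent.Y703.CT.Ana
open Dst Wp

variable {Γ : Type*} [LinearOrderedCommGroupWithZero Γ] {v : Valuation ℂ Γ}
  {L : PeriodPair} {Ω : ℂ} {ι : Type*} [DecidableEq ι]
  {π : ι → eis} {X : ι → eis → ℂ} {z : ℂ} {a : ι → ι → ZMod 3} {b : ι → ZMod 3}

/-- the correction -/
noncomputable def ep (L : PeriodPair) (Ω u : ℂ) : ℂ :=
  (4 * ℘[L] u ^ 3 + 1) / (2 * ℘[L] (Ω / 3) ^ 2 * (℘[L] (Ω / 3) - ℘[L] u))

section est

variable (h3 : v 3 < 1) (hC : Cur L Ω)
  (hfin : ∀ q : eis, q ≠ 0 → Finite (eis ⧸ sp q)) (h : Fy v π X z a b) (hz : Zt v z)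
  (hzl : v (1 - z) = v lam)

include h3 hC hfin h hz hzl in
/-- the estimate -/
theorem est2 {S : Finset ι} (hS : S.Nonempty) :
    v (Sm (cc π S) (fun x => PX π X S x * ep L Ω (Ω * x / cc π S))) < v lam ^ (S.card + 2) := by
  classical
  have hc := h.cc_ne S
  have hct := h.cc_top hS
  have hD := dat' hC hc (h.three_cc S) hct hfin
  have : Fintype (eis ⧸ sp (cc π S)) := @Fintype.ofFinite _ (hfin _ hc)
  rw [Sm_eq]
  have hpos : v lam ^ (S.card + 2) ≠ 0 := pow_ne_zero _ lam_ne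
  refine v.map_sum_lt hpos fun q _ => ?_
  by_cases hq : IsCoprime q.out (cc π S)
  · have hq' : q.out ∉ sp (cc π S) := notMem_of_cop hct hq
    have hu : Ω * q.out / cc π S ∉ L.lattice := by rwa [div_mem_iff hC.lat hc]
    have h4 := X_le h3 hD ⟨q.out, hq⟩
    have h5 : XX L Ω (cc π S) ⟨q.out, hq⟩ = 4 * ℘[L] (Ω * q.out / cc π S) ^ 3 + 1 := hC.ode hu
    rw [h5] at h4
    have h6 := del2 h3 (by have := hC.x0; linear_combination this) h4
    rw [map_mul, pow_add]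
    have h7 := PX_le hz h (S := S) q.out
    rw [hzl] at h7
    calc v (PX π X S q.out) * v (ep L Ω (Ω * q.out / cc π S)) ≤
        v lam ^ S.card * v (ep L Ω (Ω * q.out / cc π S)) := mul_le_mul' h7 le_rfl
      _ < v lam ^ S.card * v lam ^ 2 := mul_lt_mul_of_pos_left h6 (pow_pos lam_pos _)
  · rw [PX_zero h hq, zero_mul, map_zero]
    exact pow_pos lam_pos _

variable [Fintype (eis ⧸ (sp 3 : Ideal eis))]

/-- the normalized `L`-values -/
noncomputable def AV (L : PeriodPair) (Ω : ℂ) (π : ι → eis) (X : ι → eis → ℂ) (T : Finset ι) : ℂ :=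
  SQ L Ω π X T / kap L Ω

/-- the sums of `X` -/
noncomputable def B1 (L : PeriodPair) (Ω : ℂ) (π : ι → eis) (X : ι → eis → ℂ) (T : Finset ι) : ℂ :=
  SF (P1 L Ω) π X T

/-- the sums of `X ^ 2` -/
noncomputable def B2 (L : PeriodPair) (Ω : ℂ) (π : ι → eis) (X : ι → eis → ℂ) (T : Finset ι) : ℂ :=
  SF (P2 L Ω) π X T

/-- the sums of second order -/
noncomputable def CC (L : PeriodPair) (Ω : ℂ) (π : ι → eis) (X : ι → eis → ℂ) (T : Finset ι) : ℂ :=
  AV L Ω π X T - 2 * B1 L Ω π X T + 2 * B2 L Ω π X T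

variable (h3π : ∀ i, π i - 1 ∈ (sp 3 : Ideal eis)) (hW : S_WPD)

include h3 hC hfin h h3π hW in
/-- the identity of second order -/
theorem idn2 {S : Finset ι} (hS : S.Nonempty) :
    -(∏ i ∈ S, ((Nat.card (eis ⧸ sp (π i)) : ℂ) - 1)) -
      Sm (cc π S) (fun x => PX π X S x * ep L Ω (Ω * x / cc π S)) =
    ∑ T ∈ S.powerset, (-1) ^ T.card *
      ((∏ i ∈ S \ T, ((π i : ℂ) - XT X T (π i))) * AV L Ω π X T -
        2 * ((∏ i ∈ S \ T, ((π i : ℂ) ^ 2 - XT X T (π i))) * B1 L Ω π X T) +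
        2 * ((∏ i ∈ S \ T, ((π i : ℂ) ^ 4 - XT X T (π i))) * B2 L Ω π X T)) := by
  have hκ := kap_ne hC
  have h1 := idn hC hfin h h3π hS
  have h2 := mainF (dn1 hC hW) hfin h.toFm S
  have h4 := mainF (dn2 hC hW) hfin h.toFm S
  have h5 : ∑ T ∈ S.powerset, (-1) ^ T.card *
      ((∏ i ∈ S \ T, ((π i : ℂ) - XT X T (π i))) * AV L Ω π X T -
        2 * ((∏ i ∈ S \ T, ((π i : ℂ) ^ 2 - XT X T (π i))) * B1 L Ω π X T) +
        2 * ((∏ i ∈ S \ T, ((π i : ℂ) ^ 4 - XT X T (π i))) * B2 L Ω π X T)) =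
      (∑ T ∈ S.powerset, (-1) ^ T.card * ((∏ i ∈ S \ T, ((π i : ℂ) - XT X T (π i))) *
        SQ L Ω π X T)) / kap L Ω -
      2 * (∑ T ∈ S.powerset, (-1) ^ T.card * ((∏ i ∈ S \ T, ((π i : ℂ) ^ 2 - XT X T (π i))) *
        SF (P1 L Ω) π X T)) +
      2 * (∑ T ∈ S.powerset, (-1) ^ T.card * ((∏ i ∈ S \ T, ((π i : ℂ) ^ 4 - XT X T (π i))) *
        SF (P2 L Ω) π X T)) := by
    rw [Finset.sum_div, Finset.mul_sum, Finset.mul_sum, ← Finset.sum_sub_distrib,
      ← Finset.sum_add_distrib]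
    refine Finset.sum_congr rfl fun T _ => ?_
    unfold AV B1 B2
    field_simp
  rw [h5, ← h1, ← h2, ← h4, mul_div_cancel_left₀ _ hκ, ← sum_PX hfin h S]
  unfold Sm
  rw [← Finset.sum_neg_distrib, ← Finset.sum_sub_distrib, ← Finset.sum_add_distrib,
    Finset.mul_sum, Finset.mul_sum, ← Finset.sum_sub_distrib, ← Finset.sum_add_distrib]
  refine Finset.sum_congr rfl fun x _ => ?_
  by_cases hx : IsCoprime x (cc π S)
  · have hct := h.cc_top hS
    have hc := h.cc_ne S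
    have hx' : x ∉ sp (cc π S) := notMem_of_cop hct hx
    have hu : Ω * x / cc π S ∉ L.lattice := by rwa [div_mem_iff hC.lat hc]
    have hD := dat' hC hc (h.three_cc S) hct hfin
    have h6 := X_le h3 hD ⟨x, hx⟩
    have h7 : XX L Ω (cc π S) ⟨x, hx⟩ = 4 * ℘[L] (Ω * x / cc π S) ^ 3 + 1 := hC.ode hu
    rw [h7] at h6
    have hPQ : ℘[L] (Ω / 3) - ℘[L] (Ω * x / cc π S) ≠ 0 := by
      have h8 := big h3 (P := ℘[L] (Ω / 3)) (by have := hC.x0; linear_combination this) h6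
      intro h9
      rw [h9, map_zero] at h8
      exact not_lt_zero h8
    have hk := Wp.key (P := ℘[L] (Ω / 3)) (Q := ℘[L] (Ω * x / cc π S))
      (by have := hC.x0; linear_combination this) hPQ
    have e1 : P1 L Ω (cc π S) x = ℘[L] (Ω / 3) ^ 2 * ℘[L] (Ω * x / cc π S) := by
      unfold P1 wz
      rw [if_neg hu]
    show -PX π X S x - PX π X S x * ep L Ω (Ω * x / cc π S) =
      PX π X S x + PX π X S x * dl L Ω (Ω * x / cc π S) -
        2 * (PX π X S x * P1 L Ω (cc π S) x) + 2 * (PX π X S x * P2 L Ω (cc π S) x)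
    unfold P2
    rw [e1]
    unfold dl ep
    linear_combination (-PX π X S x) * hk
  · have h0 := PX_zero h hx
    show -PX π X S x - PX π X S x * ep L Ω (Ω * x / cc π S) =
      PX π X S x + PX π X S x * dl L Ω (Ω * x / cc π S) -
        2 * (PX π X S x * P1 L Ω (cc π S) x) + 2 * (PX π X S x * P2 L Ω (cc π S) x)
    rw [h0]
    ring

end est

end Sec

end Pool.Agent.D0H69.L0
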