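import Pool.Agent.Y703.CT.AN1
import Pool.Agent.D0H69.L0.Defs

/-!
# Project L0: statements of the analytic part
-/

set_option autoImplicit false
set_option linter.unusedVariables false

open Filter
open scoped Classical Topology PeriodPair

namespace Pool.Agent.D0H69.L0

open Pool.Agent.Y692.QS (Ei w nr toC)
open Pool.Agent.Y703.CT (Dt pD chD IsHL)
open Pool.Agent.Y715.Dist (Sm)
open Pool.Agent.Y696 (Cur eis)
open Pool.Agent.Y715.T.Three (lam)

/-- the function `℘`, replaced by `0` on the lattice -/
noncomputable def wz (L : PeriodPair) (z : ℂ) : ℂ := if z ∈ L.lattice then 0 else ℘[L] z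

/-- L0-WPD: the distribution relations of `℘` and of `℘ ^ 2 = ℘'' / 6` (here `g₂ = 0`), `Sm a F` is
the sum of `F` over representatives of the residue classes modulo `a`. Sketch: the difference of
the two sides of the first relation has derivative zero (for `℘'` the relation with `a ^ 3` is the
absolutely convergent series), so it is constant, and the constant is `0` because
`℘ (ω z) = ω ℘ z`; at the points of the lattice take the limit. The second relation: derivative of the
relation for `℘'`, as `℘'' = 6 ℘ ^ 2`. -/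
def S_WPD : Prop := ∀ (L : PeriodPair) (Ω : ℂ), Cur L Ω → ∀ a : eis, a ≠ 0 → ∀ z : ℂ,
  Sm a (fun t => wz L (z + Ω * t / a)) = (a : ℂ) ^ 2 * wz L (a * z) ∧
  Sm a (fun t => wz L (z + Ω * t / a) ^ 2) = (a : ℂ) ^ 4 * wz L (a * z) ^ 2

/-- L0-ANM: the final statement of the analytic part. -/
def S_ANM : Prop := ∀ (J : Type) [Fintype J] (π : J → Ei) (e : J → ZMod 3), Dt π e → Ntl π e →
  KerM π e → ∃ F : ℂ → ℂ, IsHL π (fun k => -e k) F ∧ F 1 ≠ 0 ∧
    ∀ (Γ : Type) [LinearOrderedCommGroupWithZero Γ] (v : Valuation ℂ Γ), v 3 < 1 →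
      ∀ (L : PeriodPair) (Ω : ℂ), Cur L Ω →
        v ((starRingEnd ℂ) (F 1) / Ω) * v lam = v lam ^ Fintype.card J

end Pool.Agent.D0H69.L0
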