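import Pool.Agent.N883.FF.StmC
import Pool.Agent.D0H69.L0.Defs

/-!
# Project L0: the exact proportion over the Eisenstein integers
-/

set_option autoImplicit false
set_option linter.unusedVariables false

open scoped Classical

namespace Pool.Agent.D0H69.L0

open Pool.Agent.Y692.QS (Ei w nr toC)
open Pool.Agent.Y703.CT (Dt pD)
open Pool.Agent.Y703.XK (c9)
open Pool.Agent.N883.FF (ClP)

/-- L0-DENK: among the cube-free primary elements of norm `1` modulo `9` the proportion of those
with `KerM` tends to `c9 = 0.639...`; `T` is any property equivalent to `KerM` for the nonempty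
products of primary primes. Model: `Pool/Agent/D0H10/L9D` (bordered matrix) and the class with the
constants in the kernel, `Pool/Agent/R419/KF`. In the box (all `nq`, `yq` constant) the condition
`∑ e_j nq = 0` is constant; delete one vertex: the minor of the Laplacian is a uniform symmetric matrix
`L'` of size `m`, the border `r' ≠ 0` is fixed, the corner `Y` is fixed; if `Y ≠ 0` the determinant is
`Y det (-L' - r' r'ᵗ / Y)`, if `Y = 0` it is `- det` of the form restricted to `r'^⊥ / ...` of size
`m - 1`: in both cases uniform symmetric. -/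
def S_DENM : Prop := ∀ T : Ei → Prop,
  (∀ (n : ℕ) (π : Fin (n + 1) → Ei) (e : Fin (n + 1) → ZMod 3), Dt π e → Ntl π e →
    (T (pD π e) ↔ KerM π e)) →
  Filter.Tendsto (fun X : ℕ =>
    ({D : Ei | nr D ≤ X ∧ ClP D ∧ (9 : ℤ) ∣ nr D - 1 ∧ T D}.ncard : ℝ) /
      ({D : Ei | nr D ≤ X ∧ ClP D ∧ (9 : ℤ) ∣ nr D - 1}.ncard : ℝ)) Filter.atTop (nhds c9)

end Pool.Agent.D0H69.L0
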