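import Pool.Agent.N883.FF.StmS
import Pool.Agent.D0H69.L0.Defs
import Pool.Agent.Y703.CT.StmF
import Pool.Agent.Y696.CTK.LK

/-!
# Project L0: statements of the descent and of its converse

Local condition at three, `D = 1 + 3 λ s` modulo `9` (`λ = √-3`; `yq D = -s`): the local image of
`E_D(K_3)` in `K_3^* / K_3^{*3}`, `P ↦ y(P)`, is generated by the units `1` modulo `λ ^ 3` and by
`ω (1 - 3 s)`; so `ω ^ b (1 + 3 r)` is in the image iff `r = -b s` modulo `λ`, that is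
`nq (1 + 3 r) + b * yq D = 0` (`nq (1 + 3 r) = -r` modulo `λ`).
Proof of `⊆`: let `Y ^ 2 + D Y = X ^ 3` in `K_3`. If `v(Y) < 0` then `Y` is a cube times
`1 + D / Y`, `v(D / Y) ≥ 3`. If `v(Y) > 0` then `Y = D ^ 2 / (D Y⁻¹ ... )`: use `-D-Y` or the cube
`Y (Y + D)`: `Y` is `(Y + D)⁻¹` modulo cubes, `Y + D = D (1 + Y / D)`, `v(Y) ≥ 3`. If `v(Y) = 0 =
v(Y + D)` then `Y = 1` modulo `λ` and `Y (Y + D)` is a cube; write `Y = ω ^ b (1 + 3 r) c ^ 3` and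
compute modulo `9`, all cubes of units are `± 1` modulo `9`. If `v(Y) = 0 < v(Y + D)` exchange
`Y` and `-(Y + D)`.
-/

set_option autoImplicit false
set_option linter.unusedVariables false

open scoped Classical

namespace Pool.Agent.D0H69.L0

open NumberField WeierstrassCurve
open Pool.Agent.Y692.QS (Ei w nr toC)
open Pool.Agent.Y715.T.Rec (cs)
open Pool.Agent.Y715.T.Gi Pool.Agent.Y715.T.Nr Pool.Agent.Y715.T.Df Pool.Agent.Y715.T.Ell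
open Pool.Agent.Y703.CT
open Pool.Agent.Y696.CTK (ED)
open Pool.Agent.N883.FF (nq S_RAMG S_UNRG)
open Pool.Agent.D0H43.L3 (yq)

/-- L0-LOC3: the local condition at the prime above three. -/
def S_LOC3M : Prop := ∀ (i₀ : QB) (hi : i₀ ^ 2 + i₀ + 1 = 0) (D : Ei), (3 : Ei) ∣ D - 1 →
  (9 : ℤ) ∣ nr D - 1 → ∀ (u : QB) (a : GK i₀ → ZMod 3), Tw hi D u a →
  ∀ (h : GK i₀ → ZMod 3) (v q : Ei) (g : ℕ), IsUnit v → Kc hi (v * lam ^ g * (1 + 3 * q)) h →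
  ∀ (_ : Fact (Nat.Prime 3)) (ι : QB →ₐ[ℚ] PadicAlgCl 3) (R : Pt (PadicAlgCl 3)),
    St1 hi ι a h R → 3 ∣ g ∧ ∃ b : ZMod 3, (v = w ^ b.val ∨ v = -w ^ b.val) ∧
      nq (1 + 3 * q) + b * yq D = 0

/-- L0-SEL: the Selmer group. -/
def S_SELM : Prop := S_LOC3M → S_RAMG → S_UNRG →
  ∀ (J : Type) [Fintype J] (π : J → Ei) (e : J → ZMod 3), Dt π e → Ntl π e → KerM π e →
  ∀ (i₀ : QB) (hi : i₀ ^ 2 + i₀ + 1 = 0) (u : QB) (a : GK i₀ → ZMod 3),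
    Tw hi (pD π e) u a → Sel1 hi a

/-- L0-FIN: finite group of points, trivial `3`-part of the Tate-Shafarevich group
(as `Pool.Agent.D0H15.L9.finN`; `J` is not empty because of `KerM`). -/
def S_FINM : Prop := ∀ (K : Type) [Field K] [NumberField K] (j : Ei ≃+* 𝓞 K)
    (J : Type) [Fintype J] (π : J → Ei) (e : J → ZMod 3), Dt π e → Ntl π e → KerM π e →
    Finite (ED (j (pD π e) : K)).toAffine.Point ∧
      padicValNat 3 (Nat.card (ED (j (pD π e) : K)).toAffine.Point) = 1 ∧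
      ∀ (n : ℕ) (x : Pool.Agent.TH841.NF.D.Sha (ED (j (pD π e) : K))), 3 ^ n • x = 0 → x = 0

/-! ### the converse -/

/-- L0-CUB3: local solutions at three. -/
def S_CUB3M : Prop := ∀ (_ : Fact (Nat.Prime 3)) (I : PadicAlgCl 3) (hI : I ^ 2 + I + 1 = 0)
  (b : ZMod 3) (B D : Ei), (3 : Ei) ∣ B - 1 → (3 : Ei) ∣ D - 1 → (9 : ℤ) ∣ nr D - 1 →
  nq B + b * yq D = 0 → ∃ s t r, Sol hI (w ^ b.val * B) D s t r

/-- L0-RAMC: the primes dividing `D`. -/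
def S_RAMCM : Prop := ∀ (J : Type) [Fintype J] (π : J → Ei) (e : J → ZMod 3), Dt π e →
  ∀ (i₀ : QB) (hi : i₀ ^ 2 + i₀ + 1 = 0) (u : QB) (a : GK i₀ → ZMod 3), Tw hi (pD π e) u a →
  ∀ (v : J → ZMod 3) (b : ZMod 3) (h : GK i₀ → ZMod 3),
  Kc hi (w ^ b.val * ∏ j, π j ^ (e j * v j).val) h →
  ∀ j : J, ∑ k, e k * cs (π j) (π k) * (v k - v j) + b * nq (π j) = 0 →
  ∀ (p : ℕ) [Fact p.Prime] (ι : QB →ₐ[ℚ] PadicAlgCl p), ‖ι (ev i₀ hi (π j))‖ < 1 →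
    ∃ R, St1 hi ι a h R

/-- L0-SELC: a nontrivial kernel gives a nontrivial Selmer class. -/
def S_SELCM : Prop := S_FF → S_CUB → S_CUB3M → S_PT → S_RAMCM →
  ∀ (J : Type) [Fintype J] (π : J → Ei) (e : J → ZMod 3), Dt π e → Ntl π e → ¬ KerM π e →
  ∀ (i₀ : QB) (hi : i₀ ^ 2 + i₀ + 1 = 0) (u : QB) (a : GK i₀ → ZMod 3), Tw hi (pD π e) u a →
  ¬ Sel1 hi a

end Pool.Agent.D0H69.L0
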