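import Pool.Agent.D0H69.L0.Dst
import Pool.Agent.D0H69.L0.StmA

/-!
# Project L0: the functions `X` and `X ^ 2` on the torsion points

`X(u) = P ^ 2 ℘(u)`, `P = ℘(Ω / 3)`, `P ^ 3 = -1`.
-/

set_option autoImplicit false
set_option linter.unusedSectionVars false

open Filter
open scoped Topology PeriodPair

namespace Pool.Agent.D0H69.L0

namespace Wp

open H667R3 Pool.Agent.W192.HK Pool.Agent.TH936.CM Pool.Agent.TH936.PU
open Pool.Agent.Y715.Dist Pool.Agent.Y715.Idn Pool.Agent.Y715.T.Lat Pool.Agent.Y696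
open Pool.Agent.Y715.Two (v_nat v_int v_unit v_mul_le_of)
open Pool.Agent.Y715.T.Three Pool.Agent.Y715.T.Cg
open Pool.Agent.Y703.CT.Ana (dl big PX)
open Dst

variable {Γ : Type*} [LinearOrderedCommGroupWithZero Γ] {v : Valuation ℂ Γ}
  {L : PeriodPair} {Ω : ℂ} {ι : Type*} [DecidableEq ι]

/-- the function `X`, zero on the lattice -/
noncomputable def P1 (L : PeriodPair) (Ω : ℂ) (c x : eis) : ℂ :=
  ℘[L] (Ω / 3) ^ 2 * wz L (Ω * x / c)

/-- the function `X ^ 2`, zero on the lattice -/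
noncomputable def P2 (L : PeriodPair) (Ω : ℂ) (c x : eis) : ℂ := P1 L Ω c x ^ 2

lemma wz_per {z w : ℂ} (h : z - w ∈ L.lattice) : wz L z = wz L w := by
  unfold wz
  by_cases hz : z ∈ L.lattice
  · have hw : w ∈ L.lattice := by
      have := sub_mem hz h
      rwa [sub_sub_cancel] at this
    rw [if_pos hz, if_pos hw]
  · have hw : w ∉ L.lattice := by
      intro hw
      apply hz
      have := add_mem h hw
      rwa [sub_add_cancel] at this
    rw [if_neg hz, if_neg hw]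
    exact wp_per h

lemma wz_unit (hL : IsLat L eis Ω) {u : eis} (hu : IsUnit u) (z : ℂ) :
    wz L (u * z) = ((u : ℂ) ^ 2)⁻¹ * wz L z := by
  unfold wz
  have h1 : (u : ℂ) * z ∈ L.lattice ↔ z ∈ L.lattice := by
    constructor
    · intro h
      obtain ⟨w, hw⟩ := hu.exists_left_inv
      have h2 := hL.mul w _ h
      have h3 : (w : ℂ) * (u : ℂ) = 1 := by
        have := congrArg (fun t : eis => (t : ℂ)) hw
        simpa using this
      rwa [← mul_assoc, h3, one_mul] at h2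
    · exact hL.mul u z
  by_cases hz : z ∈ L.lattice
  · rw [if_pos hz, if_pos (h1.2 hz), mul_zero]
  · rw [if_neg hz, if_neg (fun h => hz (h1.1 h)), wp_unit hL hu]

variable (hC : Cur L Ω)

include hC in
theorem dn1 (hW : S_WPD) : Dn (P1 L Ω) (fun a => (a : ℂ) ^ 2) := by
  refine ⟨fun c x y hc hxy => ?_, fun a c x ha hc => ?_, fun a c x ha hc => ?_⟩
  · unfold P1
    congr 1
    apply wz_per
    have := (div_mem_iff hC.lat hc (x - y)).2 hxy
    convert this using 1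
    push_cast
    ring
  · unfold P1
    have ha0 := coe_ne ha
    have hc0 := coe_ne hc
    congr 2
    push_cast
    field_simp
  · have ha0 := coe_ne ha
    have hc0 := coe_ne hc
    have h1 := (hW L Ω hC a ha (Ω * x / (a * c))).1
    have h2 : (a : ℂ) * (Ω * x / (a * c)) = Ω * x / c := by field_simp
    rw [h2] at h1
    show Sm a (fun t => ℘[L] (Ω / 3) ^ 2 * wz L (Ω * ((x + c * t : eis) : ℂ) / ((a * c : eis) : ℂ))) =
      (a : ℂ) ^ 2 * (℘[L] (Ω / 3) ^ 2 * wz L (Ω * x / c))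
    rw [Sm_mul_left]
    have h3 : ∀ t : eis, Ω * ((x + c * t : eis) : ℂ) / ((a * c : eis) : ℂ) =
        Ω * x / (a * c) + Ω * t / a := by
      intro t
      push_cast
      field_simp
    simp only [h3]
    rw [h1]
    ring

include hC in
theorem dn2 (hW : S_WPD) : Dn (P2 L Ω) (fun a => (a : ℂ) ^ 4) := by
  refine ⟨fun c x y hc hxy => ?_, fun a c x ha hc => ?_, fun a c x ha hc => ?_⟩
  · unfold P2
    rw [(dn1 hC hW).per c x y hc hxy]
  · unfold P2
    rw [(dn1 hC hW).can a c x ha hc]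
  · have ha0 := coe_ne ha
    have hc0 := coe_ne hc
    have h1 := (hW L Ω hC a ha (Ω * x / (a * c))).2
    have h2 : (a : ℂ) * (Ω * x / (a * c)) = Ω * x / c := by field_simp
    rw [h2] at h1
    have h3 : ∀ t : eis, Ω * ((x + c * t : eis) : ℂ) / ((a * c : eis) : ℂ) =
        Ω * x / (a * c) + Ω * t / a := by
      intro t
      push_cast
      field_simp
    have h4 : ∀ t : eis, P2 L Ω (a * c) (x + c * t) =
        ℘[L] (Ω / 3) ^ 4 * wz L (Ω * x / (a * c) + Ω * t / a) ^ 2 := by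
      intro t
      unfold P2 P1
      rw [h3]
      ring
    simp only [h4]
    rw [Sm_mul_left, h1]
    unfold P2 P1
    ring

include hC in
lemma P1_om {c : eis} (x : eis) : P1 L Ω c (omr * x) = om * P1 L Ω c x := by
  have hu : IsUnit omr := (unit_list _).2 (by simp)
  unfold P1
  have e : Ω * ((omr * x : eis) : ℂ) / (c : ℂ) = (omr : ℂ) * (Ω * x / c) := by
    push_cast
    ring
  have h2 : (om ^ 2)⁻¹ = om := by
    have h3 := om_cube
    have h0 := om_ne
    field_simp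
    exact h3.symm
  rw [e, wz_unit hC.lat hu, omr_coe, h2]
  ring

include hC in
lemma P2_om {c : eis} (x : eis) : P2 L Ω c (omr * x) = om ^ 2 * P2 L Ω c x := by
  unfold P2
  rw [P1_om hC]
  ring

lemma P1_zero : P1 L Ω 1 0 = 0 := by
  unfold P1 wz
  have h : Ω * ((0 : eis) : ℂ) / ((1 : eis) : ℂ) = 0 := by
    push_cast
    simp
  rw [h, if_pos (zero_mem _), mul_zero]

lemma P2_zero : P2 L Ω 1 0 = 0 := by
  unfold P2
  rw [P1_zero]
  ring

/-! ### the key identity -/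

/-- the second order function -/
noncomputable def gt (L : PeriodPair) (Ω u : ℂ) : ℂ :=
  1 + dl L Ω u - 2 * (℘[L] (Ω / 3) ^ 2 * ℘[L] u) + 2 * (℘[L] (Ω / 3) ^ 2 * ℘[L] u) ^ 2

lemma key {P Q : ℂ} (hP : P ^ 3 + 1 = 0) (hPQ : P - Q ≠ 0) :
    1 + 3 / (2 * P ^ 2 * (P - Q)) - 2 * (P ^ 2 * Q) + 2 * (P ^ 2 * Q) ^ 2 =
      -1 - (4 * Q ^ 3 + 1) / (2 * P ^ 2 * (P - Q)) := by
  have hP0 : P ≠ 0 := by
    rintro rfl
    norm_num at hP
  have h1 : 4 * P ^ 2 * (P - Q) * (1 - P ^ 2 * Q + P ^ 4 * Q ^ 2) + 4 + 4 * Q ^ 3 = 0 := by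
    linear_combination (4 * (1 - P ^ 2 * Q + P ^ 4 * Q ^ 2 - Q ^ 3 * (P ^ 3 - 1))) * hP
  have h2 : (1 + 3 / (2 * P ^ 2 * (P - Q)) - 2 * (P ^ 2 * Q) + 2 * (P ^ 2 * Q) ^ 2) -
      (-1 - (4 * Q ^ 3 + 1) / (2 * P ^ 2 * (P - Q))) =
      (4 * P ^ 2 * (P - Q) * (1 - P ^ 2 * Q + P ^ 4 * Q ^ 2) + 4 + 4 * Q ^ 3) /
        (2 * P ^ 2 * (P - Q)) := by
    field_simp
    ring
  rw [h1, zero_div] at h2
  exact sub_eq_zero.1 h2

/-- the correction is small -/
lemma del2 (h3 : v 3 < 1) {P Q : ℂ} (hP : P ^ 3 + 1 = 0) (ht : v (4 * Q ^ 3 + 1) ≤ v lam ^ 3) :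
    v ((4 * Q ^ 3 + 1) / (2 * P ^ 2 * (P - Q))) < v lam ^ 2 := by
  have h1 := big h3 hP ht
  have hP1 : v P = 1 := z_pow (k := 6) (by norm_num) (by linear_combination (P ^ 3 - 1) * hP)
  have h2 : 0 < v (P - Q) := lt_of_le_of_lt zero_le h1
  rw [map_div₀, map_mul, map_mul, map_pow, hP1, one_pow, mul_one, v_two h3, one_mul,
    div_lt_iff₀ h2]
  refine ht.trans_lt ?_
  rw [pow_succ]
  exact mul_lt_mul_of_pos_left h1 (pow_pos lam_pos _)

end Wp

end Pool.Agent.D0H69.L0
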